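import Pool.Agent.Helper59.EX.Forest

/-!
The first l2-Betti number.
-/

open scoped InnerProductSpace ComplexOrder

namespace Pool.Agent.Helper59.EX

/-- The coboundary of the delta function at `g`: the function on the edges of the Cayley graph
with value `1` on the edges ending at `g` and `-1` on the edges starting at `g`. -/
noncomputable def starVec {G I : Type} [Group G] [Fintype I] (s : I → G) (g : G) : L2 (G × I) :=
  ∑ i, (delta (g * (s i)⁻¹, i) - delta (g, i))

/-- The closed subspace of the harmonic square summable 1-cocycles: the square summable functions
on the edges of the Cayley graph which are orthogonal to all closed walks and to all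
coboundaries. -/
noncomputable def l2Harmonic {G I : Type} [Group G] [Fintype I] (s : I → G) :
    Submodule ℂ (L2 (G × I)) :=
  (Submodule.span ℂ ({v | ∃ (a : G) (l : List ((G × I) × Bool)), IsWalk s a l a ∧
    v = walkVec l} ∪ Set.range (starVec s)))ᗮ

instance l2Harmonic_hasOrthogonalProjection {G I : Type} [Group G] [Fintype I] (s : I → G) :
    (l2Harmonic s).HasOrthogonalProjection := by
  unfold l2Harmonic
  infer_instance

/-- The first l2-Betti number of the group `G` generated by the family `s`: the `G`-dimension
(von Neumann dimension) of the space of harmonic square summable 1-cocycles. -/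
noncomputable def l2Betti {G I : Type} [Group G] [Fintype I] (s : I → G) : ℝ :=
  ∑ i, ‖(l2Harmonic s).starProjection (delta ((1 : G), i))‖ ^ 2

/-- The closure of the space of coboundaries. -/
noncomputable def l2Cobound {G I : Type} [Group G] [Fintype I] (s : I → G) :
    Submodule ℂ (L2 (G × I)) :=
  (Submodule.span ℂ (Set.range (starVec s)))ᗮᗮ

instance l2Cobound_hasOrthogonalProjection {G I : Type} [Group G] [Fintype I] (s : I → G) :
    (l2Cobound s).HasOrthogonalProjection := by
  unfold l2Cobound
  infer_instance

end Pool.Agent.Helper59.EX
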