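import Pool.Agent.Helper59.EX.ForestFinal
import Pool.Agent.Helper59.EX.Betti
import Pool.Agent.Helper59.EX.St.P1
import Pool.Agent.Helper59.EX.St.P2

/-!
EX: groups with large first l2-Betti number.
-/

namespace Pool.Agent.Helper59.EX

theorem betti_final {G I : Type} [Group G] [Infinite G] [Fintype I] (s : I → G)
    (hs : Subgroup.closure (Set.range s) = ⊤)
    (h : 2 * Real.sqrt (Fintype.card I) - 1 < l2Betti s) (Γ : Type) [Group Γ]
    (hΓ : HasSubquotient Γ G) : FullNotExact Γ := by
  refine l2_final s ?_ Γ hΓ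
  have h1 := one_le_dim_l2Cobound s hs
  have h2 : l2CocycleDim s = (∑ i, ‖(l2Cobound s).starProjection (delta ((1 : G), i))‖ ^ 2) +
      l2Betti s := by
    unfold l2CocycleDim l2Betti
    rw [← Finset.sum_add_distrib]
    exact Finset.sum_congr rfl fun i _ => norm_sq_proj_cocycles s _
  linarith

end Pool.Agent.Helper59.EX
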