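import Pool.Agent.Helper59.EX.St.A1
import Pool.Agent.Helper59.EX.St.A2
import Pool.Agent.Helper59.EX.St.A3
import Pool.Agent.Helper59.EX.St.A4
import Pool.Agent.Helper59.EX.St.A5
import Pool.Agent.Helper59.EX.St.A7
import Pool.Agent.Helper59.EX.St.A8a
import Pool.Agent.Helper59.EX.St.A8b
import Pool.Agent.Helper59.EX.St.A8c
import Pool.Agent.Helper59.EX.St.A9

/-!
EX-A10: the criterion for non-exactness.
-/

open scoped TensorProduct InnerProductSpace ENNReal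

namespace Pool.Agent.Helper59.EX

/-- Haagerup type inequality in all representations of the reduced C*-algebra. -/
theorem haagerup_rep {I : Type} [Fintype I] [DecidableEq I] {A C H K : Type*} [CStarAlgebra A]
    [CStarAlgebra C]
    [NormedAddCommGroup H] [InnerProductSpace ℂ H] [CompleteSpace H]
    [NormedAddCommGroup K] [InnerProductSpace ℂ K] [CompleteSpace K]
    (ι : C →⋆ₐ[ℂ] (L2 (FreeGroup I) →L[ℂ] L2 (FreeGroup I))) (hι : Function.Injective ι)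
    (c : I → C) (hc : ∀ i, ι (c i) = (rightReg (FreeGroup.of i) :
      L2 (FreeGroup I) →L[ℂ] L2 (FreeGroup I)))
    (b : I → A) (Dr Dc : ℝ) (hr : ‖∑ i, b i * star (b i)‖ ≤ Dr)
    (hcc : ‖∑ i, star (b i) * b i‖ ≤ Dc)
    (π : A →⋆ₙₐ[ℂ] (H →L[ℂ] H)) (σ : C →⋆ₙₐ[ℂ] (K →L[ℂ] K)) :
    ‖tensorRep π σ (∑ i, b i ⊗ₜ[ℂ] c i)‖ ≤ Real.sqrt Dr + Real.sqrt Dc := by
  have hDr : 0 ≤ Dr := (norm_nonneg _).trans hr
  have hDc : 0 ≤ Dc := (norm_nonneg _).trans hcc
  refine norm_tensorRep_le_of_matrix π σ b c _ (by positivity) ?_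
  intro n e he η ξ
  have key := matrix_transfer ι hι σ (n := n)
    (fun l j => ∑ i, ⟪e l, π (b i) (e j)⟫_ℂ • c i) (Real.sqrt Dr + Real.sqrt Dc) (by positivity)
    (fun η ξ => ?_) η ξ
  · refine le_trans (le_of_eq ?_) key
    congr 1
    refine Finset.sum_congr rfl fun l _ => Finset.sum_congr rfl fun j _ => ?_
    rw [map_sum, _root_.sum_apply, inner_sum]
    refine Finset.sum_congr rfl fun i _ => ?_
    rw [map_smul, _root_.smul_apply, inner_smul_right]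
  · refine le_trans (le_of_eq ?_) (haagerup_scalar
      (fun i l j => ⟪e l, π (b i) (e j)⟫_ℂ) Dr Dc hDr hDc
      (fun v => compress_row π b Dr hr e he v) (fun v => compress_col π b Dc hcc e he v) η ξ)
    congr 1
    refine Finset.sum_congr rfl fun l _ => Finset.sum_congr rfl fun j _ => ?_
    rw [map_sum, _root_.sum_apply, inner_sum]
    refine Finset.sum_congr rfl fun i _ => ?_
    rw [map_smul, _root_.smul_apply, inner_smul_right, hc]

theorem norm_inner_apply_le {E : Type*} [NormedAddCommGroup E] [InnerProductSpace ℂ E]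
    (z w : E) (hz : ‖z‖ = 1) : ‖⟪z, w⟫_ℂ‖ ≤ ‖w‖ := by
  refine (norm_inner_le_norm (𝕜 := ℂ) z w).trans ?_
  rw [hz, one_mul]

theorem poly_lower_bound {E : Type*} [NormedAddCommGroup E] [InnerProductSpace ℂ E]
    (T T' : E →L[ℂ] E) (hT : ∀ v w : E, ⟪T v, w⟫_ℂ = ⟪v, T' w⟫_ℂ) (M : ℝ) (hM : ‖T‖ ^ 2 ≤ M)
    (p : Polynomial ℝ) (s κ : ℝ) (hp : ∀ t ∈ Set.Icc (0 : ℝ) M, t - s ≤ p.eval t)
    (z : E) (hz : ‖z‖ = 1) (hκ : 0 ≤ κ) (h : κ ≤ (⟪z, T z⟫_ℂ).re) :
    κ ^ 2 - s ≤ ‖⟪z, Polynomial.aeval (T' * T) (p.map (algebraMap ℝ ℂ)) z⟫_ℂ‖ := by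
  have hlow := poly_inner_nonneg T T' hT M hM (p - Polynomial.X + Polynomial.C s)
    (fun t ht => by
      have := hp t ht
      simp only [Polynomial.eval_add, Polynomial.eval_sub, Polynomial.eval_X, Polynomial.eval_C]
      linarith) z
  have h1 : ⟪z, T' (T z)⟫_ℂ = ((‖T z‖ ^ 2 : ℝ) : ℂ) := by
    rw [← hT, inner_self_eq_norm_sq_to_K]
    simp
  have e : (Polynomial.aeval (T' * T)) ((p - Polynomial.X +
      Polynomial.C s).map (algebraMap ℝ ℂ)) z =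
      Polynomial.aeval (T' * T) (p.map (algebraMap ℝ ℂ)) z - T' (T z) + (s : ℂ) • z := by
    simp only [Polynomial.map_add, Polynomial.map_sub, Polynomial.map_X, Polynomial.map_C,
      map_add, map_sub, Polynomial.aeval_X, Polynomial.aeval_C,
      _root_.add_apply, _root_.sub_apply]
    rfl
  rw [e, inner_add_right, inner_sub_right, inner_smul_right, h1,
    inner_self_eq_norm_sq_to_K, hz] at hlow
  simp only [Complex.add_re, Complex.sub_re, Complex.ofReal_re] at hlow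
  have e2 : ((s : ℂ) * ((RCLike.ofReal (1 : ℝ) : ℂ)) ^ 2).re = s := by
    rw [RCLike.ofReal_one, one_pow, mul_one, Complex.ofReal_re]
  rw [e2] at hlow
  have h3 : κ ≤ ‖T z‖ :=
    h.trans ((Complex.re_le_norm _).trans (norm_inner_apply_le z _ hz))
  have h7 : κ ^ 2 ≤ ‖T z‖ ^ 2 := by gcongr
  have h6 := Complex.re_le_norm
    (⟪z, Polynomial.aeval (T' * T) (p.map (algebraMap ℝ ℂ)) z⟫_ℂ)
  linarith

/-- The values of the stage functionals on `A (x) ker q` tend to zero. -/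
theorem stage_tendsto {A B C : Type} [CStarAlgebra A] [CStarAlgebra B] [CStarAlgebra C]
    (q : B →⋆ₐ[ℂ] C) (Q : ℕ → Type) [∀ n, Group (Q n)] [∀ n, Finite (Q n)]
    (ev : ∀ n, B →⋆ₐ[ℂ] (L2 (Q n) →L[ℂ] L2 (Q n)))
    (hcomm : ∀ n b (g : Q n), ev n b * (leftReg g : L2 (Q n) →L[ℂ] L2 (Q n)) =
        (leftReg g : L2 (Q n) →L[ℂ] L2 (Q n)) * ev n b)
    (hlim : ∀ b, q b = 0 →
      Filter.Tendsto (fun n => ‖ev n b (delta 1)‖) Filter.atTop (nhds 0))
    (H : ℕ → Type) [∀ n, NormedAddCommGroup (H n)] [∀ n, InnerProductSpace ℂ (H n)]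
    [∀ n, CompleteSpace (H n)] (ρ : ∀ n, A →⋆ₙₐ[ℂ] (H n →L[ℂ] H n))
    (z : ∀ n, H n ⊗[ℂ] L2 (Q n)) (hz1 : ∀ n, ‖z n‖ = 1)
    (hz : ∀ n (S : H n →L[ℂ] H n) (T : L2 (Q n) →L[ℂ] L2 (Q n)),
        (∀ g : Q n, T * (leftReg g : L2 (Q n) →L[ℂ] L2 (Q n)) =
          (leftReg g : L2 (Q n) →L[ℂ] L2 (Q n)) * T) →
        ‖TensorProduct.mapL S T (z n)‖ ≤ ‖S‖ * ‖T (delta 1)‖)
    (y : A ⊗[ℂ] B)
    (hy : y ∈ Submodule.span ℂ {w : A ⊗[ℂ] B | ∃ a b, q b = 0 ∧ w = a ⊗ₜ[ℂ] b}) :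
    Filter.Tendsto (fun n => ‖⟪z n, tensorRep (ρ n) (ev n : B →⋆ₙₐ[ℂ] (L2 (Q n) →L[ℂ] L2 (Q n))) y (z n)⟫_ℂ‖)
      Filter.atTop (nhds 0) := by
  have main : Filter.Tendsto (fun n => ‖tensorRep (ρ n) (ev n : B →⋆ₙₐ[ℂ] (L2 (Q n) →L[ℂ] L2 (Q n))) y (z n)‖)
      Filter.atTop (nhds 0) := by
    induction hy using Submodule.span_induction with
    | mem w hw =>
      obtain ⟨a, b, hb, rfl⟩ := hw
      have h1 : Filter.Tendsto (fun n => ‖a‖ * ‖ev n b (delta 1)‖) Filter.atTop (nhds 0) := by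
        simpa using (hlim b hb).const_mul ‖a‖
      refine squeeze_zero (fun n => norm_nonneg _) (fun n => ?_) h1
      rw [tensorRep_tmul]
      refine (hz n _ _ (fun g => hcomm n b g)).trans ?_
      gcongr
      exact NonUnitalStarAlgHom.norm_apply_le (ρ n) a
    | zero => simp
    | add v w _ _ hv hw =>
      refine squeeze_zero (fun n => norm_nonneg _) (fun n => ?_) (by simpa using hv.add hw)
      rw [map_add, _root_.add_apply]
      exact norm_add_le _ _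
    | smul c v _ hv =>
      refine squeeze_zero (fun n => norm_nonneg _) (fun n => ?_)
        (by simpa using hv.const_mul ‖c‖)
      rw [map_smul, _root_.smul_apply, norm_smul]
  refine squeeze_zero (fun n => norm_nonneg _) (fun n => ?_) main
  exact norm_inner_apply_le _ _ (hz1 n)

theorem not_exact_of_unitary_family {A : Type} [CStarAlgebra A] {I : Type} [Fintype I]
    [DecidableEq I] (b : I → A) (Dr Dc κ : ℝ) (hr : ‖∑ i, b i * star (b i)‖ ≤ Dr)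
    (hc : ‖∑ i, star (b i) * b i‖ ≤ Dc) (hκ : Real.sqrt Dr + Real.sqrt Dc < κ)
    (hΦ : ∀ (Q : Type) [Group Q] [Finite Q] (q : I → Q), ∃ (H : Type)
      (_ : NormedAddCommGroup H) (_ : InnerProductSpace ℂ H) (_ : CompleteSpace H)
      (ρ : A →⋆ₙₐ[ℂ] (H →L[ℂ] H)) (R : Q →* unitary (H →L[ℂ] H)) (ζ : H),
      (∀ a g, ρ a * (R g : H →L[ℂ] H) = (R g : H →L[ℂ] H) * ρ a) ∧
      (∀ g, ⟪ζ, (R g : H →L[ℂ] H) ζ⟫_ℂ = open Classical in if g = 1 then 1 else 0) ∧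
      κ ≤ (∑ i, ⟪ζ, ρ (b i) ((R (q i) : H →L[ℂ] H) ζ)⟫_ℂ).re) :
    ¬ IsExactCstar A := by
  intro hex
  obtain ⟨B, C, _, _, q, k, Q, _, _, θ, ev, ι, hq, hι, hιk, hevk, hcomm, hlim⟩ :=
    exists_package I
  have hDr : 0 ≤ Dr := (norm_nonneg _).trans hr
  have hDc : 0 ≤ Dc := (norm_nonneg _).trans hc
  set r : ℝ := Real.sqrt Dr + Real.sqrt Dc with hrdef
  have hr0 : 0 ≤ r := by positivity
  -- the element u
  set u : A ⊗[ℂ] B := ∑ i, b i ⊗ₜ[ℂ] k (FreeGroup.of i) with hu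
  set M : ℝ := minNorm u ^ 2 with hM
  have hM0 : 0 ≤ M := by positivity
  set cm : Polynomial ℝ → Polynomial ℂ := fun p => p.map (algebraMap ℝ ℂ) with hcm
  -- stage data
  choose H hH1 hH2 hH3 ρ R ζ hcom hζ hval using fun n => hΦ (Q n) (fun i => θ n (FreeGroup.of i))
  choose z hz1 hz2 hz3 using fun n => stage_vector (R n) (ζ n) (hζ n)
  -- polynomials
  choose p hp0 hp using fun m : ℕ => exists_poly (max M (r ^ 2)) (r ^ 2) (1 / ((m : ℝ) + 1))
    (le_max_of_le_left hM0) (by positivity) (by positivity)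
  -- norms of polynomials in x = u* u
  have hTT : ∀ (H K : Type) [NormedAddCommGroup H] [InnerProductSpace ℂ H] [CompleteSpace H]
      [NormedAddCommGroup K] [InnerProductSpace ℂ K] [CompleteSpace K]
      (π : A →⋆ₙₐ[ℂ] (H →L[ℂ] H)) (σ : B →⋆ₙₐ[ℂ] (K →L[ℂ] K)) (P : Polynomial ℝ),
      P.coeff 0 = 0 → tensorRep π σ (Polynomial.aeval (star u * u) (cm P)) =
        Polynomial.aeval (tensorRep π σ (star u) * tensorRep π σ u) (cm P) := by
    intro H K _ _ _ _ _ _ π σ P hP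
    rw [tensorRep_aeval π σ _ _ (by simp [hcm, hP]), tensorRep_mul]
  have hnorm : ∀ (P : Polynomial ℝ) (δ : ℝ), P.coeff 0 = 0 →
      (∀ t ∈ Set.Icc (0 : ℝ) M, |P.eval t| ≤ δ) →
      minNorm (Polynomial.aeval (star u * u) (cm P)) ≤ δ := by
    intro P δ hP hδ
    refine minNorm_le _ _ ?_
    intro H K _ _ _ _ _ _ π σ
    rw [hTT H K π σ P hP]
    refine poly_norm_le (tensorRep π σ u) (tensorRep π σ (star u))
      (fun v w => tensorRep_inner π σ u v w) M ?_ P δ hδ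
    rw [hM]
    gcongr
    exact norm_le_minNorm u π σ
  -- the image in A (x) C
  set qq : A ⊗[ℂ] B →ₗ[ℂ] A ⊗[ℂ] C := TensorProduct.map (LinearMap.id : A →ₗ[ℂ] A)
        ((q : B →⋆ₙₐ[ℂ] C) : B →ₗ[ℂ] C) with hqq
  have hquu : qq u = ∑ i, b i ⊗ₜ[ℂ] q (k (FreeGroup.of i)) := by
    rw [hu, map_sum]
    refine Finset.sum_congr rfl fun i _ => ?_
    rw [hqq, TensorProduct.map_tmul]
    rfl
  have hnormC : ∀ (P : Polynomial ℝ) (δ : ℝ), P.coeff 0 = 0 →
      (∀ t ∈ Set.Icc (0 : ℝ) (r ^ 2), |P.eval t| ≤ δ) →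
      minNorm (qq (Polynomial.aeval (star u * u) (cm P))) ≤ δ := by
    intro P δ hP hδ
    refine minNorm_le _ _ ?_
    intro H K _ _ _ _ _ _ π σ
    have hP' : (cm P).coeff 0 = 0 := by simp [hcm, hP]
    rw [hqq, map_aeval q u (cm P), ← hqq, tensorRep_aeval π σ _ _ hP', tensorRep_mul]
    refine poly_norm_le (tensorRep π σ (qq u)) (tensorRep π σ (star (qq u)))
      (fun v w => tensorRep_inner π σ (qq u) v w) (r ^ 2) ?_ P δ hδ
    gcongr
    rw [hquu]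
    exact haagerup_rep ι hι (fun i => q (k (FreeGroup.of i))) (fun i => hιk _) b Dr Dc hr hc π σ
  have hCauchy : ∀ ε > 0, ∃ N, ∀ m ≥ N, ∀ n ≥ N, minNorm
      (Polynomial.aeval (star u * u) (cm (p m)) - Polynomial.aeval (star u * u) (cm (p n))) < ε := by
    intro ε hε
    obtain ⟨N, hN⟩ := exists_nat_gt (2 / ε)
    refine ⟨N, fun m hm n hn => ?_⟩
    have hNpos : (0 : ℝ) < N := lt_trans (by positivity) hN
    have e : Polynomial.aeval (star u * u) (cm (p m)) - Polynomial.aeval (star u * u) (cm (p n)) =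
        Polynomial.aeval (star u * u) (cm (p m - p n)) := by
      simp [hcm]
    rw [e]
    refine (hnorm (p m - p n) (2 / N) (by simp [hp0]) fun t ht => ?_).trans_lt ?_
    · have h1 := hp m t ⟨ht.1, ht.2.trans (le_max_left _ _)⟩
      have h2 := hp n t ⟨ht.1, ht.2.trans (le_max_left _ _)⟩
      have h3 : 1 / ((m : ℝ) + 1) ≤ 1 / N := by
        apply one_div_le_one_div_of_le hNpos
        have : (N : ℝ) ≤ m := by exact_mod_cast hm
        linarith
      have h4 : 1 / ((n : ℝ) + 1) ≤ 1 / N := by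
        apply one_div_le_one_div_of_le hNpos
        have : (N : ℝ) ≤ n := by exact_mod_cast hn
        linarith
      rw [abs_le] at h1 h2 ⊢
      rw [Polynomial.eval_sub]
      have h5 : (2 : ℝ) / N = 1 / N + 1 / N := by ring
      constructor <;> linarith [h1.1, h1.2, h2.1, h2.2]
    · rw [div_lt_iff₀ hNpos]
      rw [div_lt_iff₀ hε] at hN
      linarith
  have hzero : Filter.Tendsto (fun m => minNorm (qq (Polynomial.aeval (star u * u) (cm (p m)))))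
      Filter.atTop (nhds 0) := by
    refine squeeze_zero (g := fun m : ℕ => 1 / ((m : ℝ) + 1)) (fun m => minNorm_nonneg _)
      (fun m => ?_) tendsto_one_div_add_atTop_nhds_zero_nat
    refine hnormC (p m) _ (hp0 m) fun t ht => ?_
    have h1 := hp m t ⟨ht.1, ht.2.trans (le_max_right _ _)⟩
    rwa [max_eq_right (by linarith [ht.2]), sub_zero] at h1
  -- apply exactness
  obtain ⟨y, hy, hyt⟩ := hex B C (q : B →⋆ₙₐ[ℂ] C) hq
    (fun m => Polynomial.aeval (star u * u) (cm (p m))) hCauchy hzero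
  have hκ0 : 0 < κ ^ 2 - r ^ 2 := by nlinarith
  obtain ⟨m, hm1, hm2⟩ : ∃ m : ℕ, 1 / ((m : ℝ) + 1) < (κ ^ 2 - r ^ 2) / 4 ∧
      minNorm (Polynomial.aeval (star u * u) (cm (p m)) - y m) < (κ ^ 2 - r ^ 2) / 4 := by
    have e1 : ∀ᶠ m : ℕ in Filter.atTop, 1 / ((m : ℝ) + 1) < (κ ^ 2 - r ^ 2) / 4 :=
      (tendsto_one_div_add_atTop_nhds_zero_nat (𝕜 := ℝ)).eventually_lt_const (by linarith)
    have e2 := hyt.eventually_lt_const (show (0 : ℝ) < (κ ^ 2 - r ^ 2) / 4 by linarith)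
    exact (e1.and e2).exists
  have e3 := (stage_tendsto q Q ev hcomm hlim H ρ z hz1 hz3 (y m) (hy m)).eventually_lt_const
    (show (0 : ℝ) < (κ ^ 2 - r ^ 2) / 4 by linarith)
  obtain ⟨n, hn⟩ := e3.exists
  set T := tensorRep (ρ n) (ev n : B →⋆ₙₐ[ℂ] (L2 (Q n) →L[ℂ] L2 (Q n))) u with hT
  set T' := tensorRep (ρ n) (ev n : B →⋆ₙₐ[ℂ] (L2 (Q n) →L[ℂ] L2 (Q n))) (star u) with hT'
  -- lower bound for p_m
  have hTn : ‖T‖ ^ 2 ≤ M := by
    rw [hM]; gcongr; exact norm_le_minNorm u _ _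
  have h2 : ⟪z n, T (z n)⟫_ℂ = ∑ i, ⟪ζ n, ρ n (b i) ((R n (θ n (FreeGroup.of i)) :
      H n →L[ℂ] H n) (ζ n))⟫_ℂ := by
    have h2a : T (z n) = ∑ i, TensorProduct.mapL (ρ n (b i))
        (rightReg (θ n (FreeGroup.of i)) : L2 (Q n) →L[ℂ] L2 (Q n)) (z n) := by
      rw [hT, hu, map_sum, _root_.sum_apply]
      refine Finset.sum_congr rfl fun i _ => ?_
      rw [tensorRep_tmul, ← hevk n (FreeGroup.of i)]
      rfl
    rw [h2a]
    refine (inner_sum (𝕜 := ℂ) (E := H n ⊗[ℂ] L2 (Q n)) _ _ _).trans ?_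
    exact Finset.sum_congr rfl fun i _ => hz2 n (ρ n (b i)) (fun g => hcom n (b i) g) _
  have hlow := poly_lower_bound T T' (fun v w => tensorRep_inner _ _ u v w) M hTn (p m)
    (r ^ 2 + 1 / ((m : ℝ) + 1)) κ (fun t ht => ?_) (z n) (hz1 n) (hr0.trans hκ.le) ?_
  · have h5 : ‖⟪z n, Polynomial.aeval (T' * T) (cm (p m)) (z n)⟫_ℂ‖ <
        (κ ^ 2 - r ^ 2) / 4 + (κ ^ 2 - r ^ 2) / 4 := by
      have e : Polynomial.aeval (T' * T) (cm (p m)) (z n) =
          tensorRep (ρ n) (ev n : B →⋆ₙₐ[ℂ] (L2 (Q n) →L[ℂ] L2 (Q n)))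
            (Polynomial.aeval (star u * u) (cm (p m)) - y m) (z n) +
          tensorRep (ρ n) (ev n : B →⋆ₙₐ[ℂ] (L2 (Q n) →L[ℂ] L2 (Q n))) (y m) (z n) := by
        rw [← _root_.add_apply, ← map_add, sub_add_cancel, hTT _ _ _ _ _ (hp0 m)]
      rw [e]
      refine (congrArg norm (inner_add_right (𝕜 := ℂ) (E := H n ⊗[ℂ] L2 (Q n)) _ _ _)).trans_lt ?_
      refine (norm_add_le _ _).trans_lt (add_lt_add ?_ hn)
      refine (norm_inner_apply_le _ _ (hz1 n)).trans_lt ?_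
      refine (ContinuousLinearMap.le_opNorm _ _).trans_lt ?_
      rw [hz1, mul_one]
      exact (norm_le_minNorm _ _ _).trans_lt hm2
    have h6 := hlow.trans_lt h5
    linarith
  · have hb := hp m t ⟨ht.1, ht.2.trans (le_max_left _ _)⟩
    rw [abs_le] at hb
    have hmx : t - r ^ 2 ≤ max (t - r ^ 2) 0 := le_max_left _ _
    linarith [hb.1]
  · rw [h2]; exact hval n

end Pool.Agent.Helper59.EX
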