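import Mathlib

/-!
Definitions for the exactness problem of full group C*-algebras:
minimal tensor norm, exact C*-algebras, full group C*-algebras, amenable groups,
restricted wreath products, subquotients.
-/

open scoped TensorProduct InnerProductSpace

namespace Pool.Agent.Helper59.EX

/-- The linear map `pi (x) sigma` from the algebraic tensor product `A (x) B` to the bounded
operators of the inner product space `H (x) K` (the algebraic tensor product of the Hilbert
spaces `H` and `K` with its usual inner product), for `*`-representations `pi` of `A` on `H` and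
`sigma` of `B` on `K`. -/
noncomputable def tensorRep {A B H K : Type*} [NonUnitalCStarAlgebra A] [NonUnitalCStarAlgebra B]
    [NormedAddCommGroup H] [InnerProductSpace ℂ H] [CompleteSpace H]
    [NormedAddCommGroup K] [InnerProductSpace ℂ K] [CompleteSpace K]
    (π : A →⋆ₙₐ[ℂ] (H →L[ℂ] H)) (σ : B →⋆ₙₐ[ℂ] (K →L[ℂ] K)) :
    A ⊗[ℂ] B →ₗ[ℂ] (H ⊗[ℂ] K →L[ℂ] H ⊗[ℂ] K) :=
  TensorProduct.lift (LinearMap.mk₂ ℂ (fun a b => TensorProduct.mapL (π a) (σ b))
    (fun a a' b => by rw [map_add, TensorProduct.mapL_add_left])
    (fun c a b => by rw [map_smul, TensorProduct.mapL_smul_left])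
    (fun a b b' => by rw [map_add, TensorProduct.mapL_add_right])
    (fun c a b => by rw [map_smul, TensorProduct.mapL_smul_right]))

/-- The minimal (spatial) C*-norm of an element of the algebraic tensor product of two
C*-algebras: the supremum of the operator norms of its images under all tensor products of
`*`-representations on Hilbert spaces. -/
noncomputable def minNorm {A B : Type} [NonUnitalCStarAlgebra A] [NonUnitalCStarAlgebra B]
    (x : A ⊗[ℂ] B) : ℝ :=
  sSup {r : ℝ | ∃ (H K : Type) (_ : NormedAddCommGroup H) (_ : InnerProductSpace ℂ H)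
    (_ : CompleteSpace H) (_ : NormedAddCommGroup K) (_ : InnerProductSpace ℂ K)
    (_ : CompleteSpace K) (π : A →⋆ₙₐ[ℂ] (H →L[ℂ] H)) (σ : B →⋆ₙₐ[ℂ] (K →L[ℂ] K)),
    r = ‖tensorRep π σ x‖}

/-- A C*-algebra `A` is exact if for every surjective `*`-homomorphism `q : B → C` of
C*-algebras the kernel of `A (x)min B → A (x)min C` is the closure `A (x)min ker q` of
`A (x) ker q`.  Elements of `A (x)min B` are given by Cauchy sequences of elements of the
algebraic tensor product. -/
def IsExactCstar (A : Type) [NonUnitalCStarAlgebra A] : Prop :=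
  ∀ (B C : Type) [NonUnitalCStarAlgebra B] [NonUnitalCStarAlgebra C] (q : B →⋆ₙₐ[ℂ] C),
    Function.Surjective q →
    ∀ x : ℕ → A ⊗[ℂ] B,
      (∀ ε > 0, ∃ N, ∀ m ≥ N, ∀ n ≥ N, minNorm (x m - x n) < ε) →
      Filter.Tendsto (fun n => minNorm (TensorProduct.map (LinearMap.id : A →ₗ[ℂ] A)
        (q : B →ₗ[ℂ] C) (x n))) Filter.atTop (nhds 0) →
      ∃ y : ℕ → A ⊗[ℂ] B,
        (∀ n, y n ∈ Submodule.span ℂ {w : A ⊗[ℂ] B | ∃ a b, q b = 0 ∧ w = a ⊗ₜ[ℂ] b}) ∧
        Filter.Tendsto (fun n => minNorm (x n - y n)) Filter.atTop (nhds 0)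

/-- `IsFullCstar G A u`: the unital C*-algebra `A` together with the homomorphism `u` from the
discrete group `G` to the unitary group of `A` is the full group C*-algebra of `G`, that is, the
completion of the group algebra in the norm `‖f‖ = sup ‖π(f)‖`, where `π` ranges over all
unitary representations of `G` on Hilbert spaces. -/
structure IsFullCstar (G : Type) [Group G] (A : Type) [CStarAlgebra A]
    (u : G →* unitary A) : Prop where
  dense : Dense (Submodule.span ℂ (Set.range fun g => (u g : A)) : Set A)
  norm_eq : ∀ f : G →₀ ℂ, ‖f.sum fun g c => c • (u g : A)‖ =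
    sSup {r : ℝ | ∃ (H : Type) (_ : NormedAddCommGroup H) (_ : InnerProductSpace ℂ H)
      (_ : CompleteSpace H) (π : G →* unitary (H →L[ℂ] H)),
      r = ‖f.sum fun g c => c • (π g : H →L[ℂ] H)‖}

/-- The full group C*-algebra of the discrete group `Γ` (it exists) is not exact. -/
def FullNotExact (Γ : Type) [Group Γ] : Prop :=
  (∃ (A : Type) (_ : CStarAlgebra A) (u : Γ →* unitary A), IsFullCstar Γ A u) ∧
  ∀ (A : Type) [CStarAlgebra A] (u : Γ →* unitary A), IsFullCstar Γ A u → ¬ IsExactCstar A

/-- A discrete group is amenable if it has a finitely additive left invariant probability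
measure defined on all subsets. -/
def IsAmenable (G : Type) [Group G] : Prop :=
  ∃ m : Set G → ℝ, (∀ s, 0 ≤ m s) ∧ m Set.univ = 1 ∧
    (∀ s t, Disjoint s t → m (s ∪ t) = m s + m t) ∧
    ∀ (g : G) (s : Set G), m ((fun h => g * h) '' s) = m s

/-- The restricted wreath product `L wr G`: the elements of finite support of (mathlib's)
regular wreath product. -/
def restrictedWreath (L G : Type) [Group L] [Group G] :
    Subgroup (RegularWreathProduct L G) where
  carrier := {w | (Function.mulSupport w.left).Finite}
  one_mem' := by simp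
  mul_mem' := by
    intro a b ha hb
    refine (Set.Finite.union ha (hb.preimage
      (f := fun x => a.right⁻¹ * x) (mul_right_injective _).injOn)).subset ?_
    intro x hx
    by_contra hc
    rw [Set.mem_union, not_or] at hc
    apply hx
    have h1 : a.left x = 1 := by simpa using hc.1
    have h2 : b.left (a.right⁻¹ * x) = 1 := by simpa using hc.2
    simp [h1, h2]
  inv_mem' := by
    intro a ha
    refine (ha.preimage (f := fun x => a.right * x) (mul_right_injective _).injOn).subset ?_
    intro x hx hc
    apply hx
    simpa using hc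

/-- `Γ` has a subgroup with a quotient isomorphic to `W`. -/
def HasSubquotient (Γ W : Type) [Group Γ] [Group W] : Prop :=
  ∃ (Λ : Subgroup Γ) (p : Λ →* W), Function.Surjective p

end Pool.Agent.Helper59.EX
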