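import Pool.Agent.Helper59.EX.Crit
import Pool.Agent.Helper59.EX.St.B1
import Pool.Agent.Helper59.EX.St.B2
import Pool.Agent.Helper59.EX.St.B3
import Pool.Agent.Helper59.EX.St.B4

/-!
EX-B5: the group form of the criterion.
-/

open scoped InnerProductSpace ComplexOrder

namespace Pool.Agent.Helper59.EX

theorem repSum_map {G D D' : Type*} [Group G] [CStarAlgebra D] [CStarAlgebra D']
    (ρ : D →⋆ₐ[ℂ] D') (v : G →* unitary D) (v' : G →* unitary D') (h : ∀ g, ρ (v g) = v' g)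
    (f : G →₀ ℂ) : ρ (f.sum fun g c => c • (v g : D)) = f.sum fun g c => c • (v' g : D') := by
  rw [Finsupp.sum, Finsupp.sum, map_sum]
  refine Finset.sum_congr rfl fun g _ => ?_
  rw [map_smul, h]

theorem mem_span_exists_repSum {G D : Type} [Group G] [CStarAlgebra D] (v : G →* unitary D)
    (x : D) (hx : x ∈ Submodule.span ℂ (Set.range fun g => (v g : D))) :
    ∃ f : G →₀ ℂ, x = repSum v f := by
  induction hx using Submodule.span_induction with
  | mem x h =>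
    obtain ⟨g, rfl⟩ := h
    refine ⟨Finsupp.single g 1, ?_⟩
    simp [repSum]
  | zero => exact ⟨0, by simp [repSum]⟩
  | add x y _ _ hx hy =>
    obtain ⟨f, rfl⟩ := hx
    obtain ⟨f', rfl⟩ := hy
    refine ⟨f + f', ?_⟩
    unfold repSum
    rw [Finsupp.sum_add_index' (by simp) (by intro a b c; rw [add_smul])]
  | smul c x _ hx =>
    obtain ⟨f, rfl⟩ := hx
    refine ⟨c • f, ?_⟩
    unfold repSum
    rw [Finsupp.sum_smul_index (by simp), Finsupp.smul_sum]
    simp only [mul_smul]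

/-- The norm of the full group C*-algebra is controlled by Hilbert space representations. -/
theorem IsFullCstar.norm_le_of_reps {G A : Type} [Group G] [CStarAlgebra A] {u : G →* unitary A}
    (hA : IsFullCstar G A u) (x : A) (c : ℝ)
    (h : ∀ (H : Type) [NormedAddCommGroup H] [InnerProductSpace ℂ H] [CompleteSpace H]
      (ρ : A →⋆ₐ[ℂ] (H →L[ℂ] H)), ‖ρ x‖ ≤ c) : ‖x‖ ≤ c := by
  refine le_of_forall_pos_le_add fun ε hε => ?_
  obtain ⟨y, hy, hxy⟩ := Metric.dense_iff.1 hA.dense x (ε / 2) (by positivity)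
  rw [Metric.mem_ball, dist_eq_norm] at hy
  obtain ⟨f, rfl⟩ := mem_span_exists_repSum u y hxy
  have h1 : ‖repSum u f‖ ≤ c + ε / 2 := by
    unfold repSum
    rw [hA.norm_eq f]
    apply csSup_le
    · exact ⟨_, PUnit, inferInstance, inferInstance, inferInstance, 1, rfl⟩
    · rintro r ⟨H, _, _, _, π, rfl⟩
      obtain ⟨ρ, hρ⟩ := hA.exists_rep π
      rw [← repSum_map ρ u π hρ]
      have e : ρ (f.sum fun g c => c • (u g : A)) = ρ x + ρ (repSum u f - x) := by
        rw [← map_add, add_sub_cancel]; rfl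
      rw [e]
      refine (norm_add_le _ _).trans (add_le_add (h H ρ) ?_)
      exact (NonUnitalStarAlgHom.norm_apply_le ρ _).trans hy.le
  have h2 : ‖x‖ ≤ ‖repSum u f‖ + ‖repSum u f - x‖ := by
    have : x = repSum u f - (repSum u f - x) := by abel
    conv_lhs => rw [this]
    exact norm_sub_le _ _
  linarith [hy.le]

/-- Two continuous linear maps which agree on the group elements are equal. -/
theorem IsFullCstar.ext_clm {G A : Type} [Group G] [CStarAlgebra A] {u : G →* unitary A}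
    (hA : IsFullCstar G A u) {E : Type*} [NormedAddCommGroup E] [NormedSpace ℂ E]
    (S T : A →L[ℂ] E) (h : ∀ g, S (u g) = T (u g)) (x : A) : S x = T x := by
  have h1 : Set.EqOn S T (closure (Submodule.span ℂ (Set.range fun g => (u g : A)) : Set A)) := by
    refine Set.EqOn.closure ?_ S.continuous T.continuous
    intro y hy
    exact LinearMap.eqOn_span (f := (S : A →ₗ[ℂ] E)) (g := (T : A →ₗ[ℂ] E))
      (by rintro _ ⟨g, rfl⟩; exact h g) hy
  exact h1 (hA.dense x)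

/-- The functional `x ↦ ⟪ξ, ρ(x) η⟫` as a continuous linear map. -/
noncomputable def coeffCLM {A H : Type*} [CStarAlgebra A] [NormedAddCommGroup H]
    [InnerProductSpace ℂ H] [CompleteSpace H] (ρ : A →⋆ₐ[ℂ] (H →L[ℂ] H)) (ξ η : H) : A →L[ℂ] ℂ :=
  LinearMap.mkContinuous
    { toFun := fun x => ⟪ξ, ρ x η⟫_ℂ
      map_add' := fun x y => by rw [map_add, _root_.add_apply, inner_add_right]
      map_smul' := fun c x => by
        rw [map_smul, _root_.smul_apply, inner_smul_right]; rfl } (‖ξ‖ * ‖η‖) (fun x => by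
      refine (norm_inner_le_norm (𝕜 := ℂ) _ _).trans ?_
      refine (mul_le_mul_of_nonneg_left ((ContinuousLinearMap.le_opNorm _ _).trans
        (mul_le_mul_of_nonneg_right (NonUnitalStarAlgHom.norm_apply_le ρ x) (norm_nonneg _)))
        (norm_nonneg _)).trans (le_of_eq (by ring)))

theorem not_exact_of_crit {W Γ : Type} [Group W] [Group Γ] (hW : Crit W)
    (hsub : HasSubquotient Γ W) (A : Type) [CStarAlgebra A] (u : Γ →* unitary A)
    (hA : IsFullCstar Γ A u) : ¬ IsExactCstar A := by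
  classical
  obtain ⟨I, _, f, Dr, Dc, κ, hDr, hDc, hκ, hnorm, hΦ⟩ := hW
  obtain ⟨Λ, p, hp⟩ := hsub
  obtain ⟨AW, _, uW, hAW⟩ := exists_fullCstar W
  obtain ⟨AL, _, uL, hAL⟩ := exists_fullCstar Λ
  obtain ⟨P, hP⟩ := hAL.exists_map hAW p
  obtain ⟨j, hj⟩ := hAL.exists_map hA Λ.subtype
  have hPs : Function.Surjective P := by
    apply surjective_of_denseRange
    refine hAW.dense.mono ?_
    have : (Submodule.span ℂ (Set.range fun g => (uW g : AW))) ≤ LinearMap.range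
        (P : AL →ₗ[ℂ] AW) := by
      rw [Submodule.span_le]
      rintro _ ⟨w, rfl⟩
      obtain ⟨l, rfl⟩ := hp w
      exact ⟨uL l, hP l⟩
    intro x hx
    exact this hx
  set c : I → AW := fun i => repSum uW (f i) with hc
  have hρc : ∀ (H : Type) [NormedAddCommGroup H] [InnerProductSpace ℂ H] [CompleteSpace H]
      (ρ : AW →⋆ₐ[ℂ] (H →L[ℂ] H)), ∃ π : W →* unitary (H →L[ℂ] H),
        ∀ i, ρ (c i) = repSum π (f i) := by
    intro H _ _ _ ρ
    refine ⟨⟨⟨fun g => ⟨ρ (uW g), ?_⟩, ?_⟩, ?_⟩, fun i => ?_⟩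
    · rw [Unitary.mem_iff, ← map_star, ← map_mul, ← map_mul]
      have h := (uW g).2
      rw [Unitary.mem_iff] at h
      rw [h.1, h.2, map_one]
      exact ⟨rfl, rfl⟩
    · apply Subtype.ext; simp
    · intro g h; apply Subtype.ext; simp
    · exact repSum_map ρ uW _ (fun g => rfl) (f i)
  have hcr : ‖∑ i, c i * star (c i)‖ ≤ Dr := by
    refine hAW.norm_le_of_reps _ _ ?_
    intro H _ _ _ ρ
    obtain ⟨π, hπ⟩ := hρc H ρ
    rw [map_sum]
    simp only [map_mul, map_star, hπ]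
    exact (hnorm H π).1
  have hcc : ‖∑ i, star (c i) * c i‖ ≤ Dc := by
    refine hAW.norm_le_of_reps _ _ ?_
    intro H _ _ _ ρ
    obtain ⟨π, hπ⟩ := hρc H ρ
    rw [map_sum]
    simp only [map_mul, map_star, hπ]
    exact (hnorm H π).2
  obtain ⟨b', hb', hbr, hbc⟩ := exists_lift_row_col P hPs c Dr Dc hDr hDc hcr hcc
  refine not_exact_of_unitary_family (fun i => j (b' i)) Dr Dc κ ?_ ?_ hκ ?_
  · have e : ∑ i, j (b' i) * star (j (b' i)) = j (∑ i, b' i * star (b' i)) := by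
      simp only [map_sum, map_mul, map_star]
    rw [e]
    exact (NonUnitalStarAlgHom.norm_apply_le j _).trans hbr
  · have e : ∑ i, star (j (b' i)) * j (b' i) = j (∑ i, star (b' i) * b' i) := by
      simp only [map_sum, map_mul, map_star]
    rw [e]
    exact (NonUnitalStarAlgHom.norm_apply_le j _).trans hbc
  · intro Q _ _ q
    obtain ⟨Φ, hΦpd, hΦ1, hΦκ⟩ := hΦ Q q
    -- GNS of Φ
    obtain ⟨HW, _, _, _, UW, ζW, hUW⟩ := gns Φ hΦpd
    -- extended function
    have hΦ' := (hΦpd.comp_hom (MonoidHom.prodMap p (MonoidHom.id Q))).extend_prod Λ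
    obtain ⟨H, _, _, _, U, ζ, hU⟩ := gns _ hΦ'
    obtain ⟨ρ, hρ⟩ := hA.exists_rep (U.comp (MonoidHom.inl Γ Q))
    obtain ⟨ρW, hρW⟩ := hAW.exists_rep (UW.comp (MonoidHom.inl W Q))
    have hval : ∀ (x : AL) (g : Q), ⟪ζ, ρ (j x) ((U (1, g) : H →L[ℂ] H) ζ)⟫_ℂ =
        ⟪ζW, ρW (P x) ((UW (1, g) : HW →L[ℂ] HW) ζW)⟫_ℂ := by
      intro x g
      have := hAL.ext_clm (coeffCLM (ρ.comp j) ζ ((U (1, g) : H →L[ℂ] H) ζ))
        (coeffCLM (ρW.comp P) ζW ((UW (1, g) : HW →L[ℂ] HW) ζW)) (fun l => ?_) x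
      · exact this
      · change ⟪ζ, ρ (j (uL l)) ((U (1, g) : H →L[ℂ] H) ζ)⟫_ℂ =
          ⟪ζW, ρW (P (uL l)) ((UW (1, g) : HW →L[ℂ] HW) ζW)⟫_ℂ
        rw [hj, hP, hρ, hρW]
        change ⟪ζ, ((U ((l : Γ), 1) * U (1, g) : unitary (H →L[ℂ] H)) : H →L[ℂ] H) ζ⟫_ℂ =
          ⟪ζW, ((UW (p l, 1) * UW (1, g) : unitary (HW →L[ℂ] HW)) : HW →L[ℂ] HW) ζW⟫_ℂ
        rw [← map_mul, ← map_mul, hU, hUW]
        simp
    refine ⟨H, inferInstance, inferInstance, inferInstance, (ρ : A →⋆ₙₐ[ℂ] (H →L[ℂ] H)),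
      U.comp (MonoidHom.inr Γ Q), ζ, ?_, ?_, ?_⟩
    · intro a g
      have := hA.ext_clm
        (E := H →L[ℂ] H)
        ((ContinuousLinearMap.mul ℂ (H →L[ℂ] H)).flip (U (1, g) : H →L[ℂ] H) ∘L
          (⟨(ρ : A →ₗ[ℂ] (H →L[ℂ] H)), by
            exact (NonUnitalStarAlgHom.norm_apply_le ρ |> fun h =>
              AddMonoidHomClass.continuous_of_bound ρ 1 (by simpa using h))⟩ : A →L[ℂ] (H →L[ℂ] H)))
        ((ContinuousLinearMap.mul ℂ (H →L[ℂ] H)) (U (1, g) : H →L[ℂ] H) ∘L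
          (⟨(ρ : A →ₗ[ℂ] (H →L[ℂ] H)), by
            exact (NonUnitalStarAlgHom.norm_apply_le ρ |> fun h =>
              AddMonoidHomClass.continuous_of_bound ρ 1 (by simpa using h))⟩ : A →L[ℂ] (H →L[ℂ] H)))
        (fun s => ?_) a
      · exact this
      · change ρ (u s) * (U (1, g) : H →L[ℂ] H) = (U (1, g) : H →L[ℂ] H) * ρ (u s)
        rw [hρ]
        change ((U (s, 1) * U (1, g) : unitary (H →L[ℂ] H)) : H →L[ℂ] H) =
          ((U (1, g) * U (s, 1) : unitary (H →L[ℂ] H)) : H →L[ℂ] H)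
        rw [← map_mul, ← map_mul]
        simp
    · intro g
      change ⟪ζ, (U (1, g) : H →L[ℂ] H) ζ⟫_ℂ = _
      rw [hU]
      simp only [one_mem, dif_pos]
      have h1 : p ⟨((1, g) : Γ × Q).1, one_mem Λ⟩ = 1 := map_one p
      have := hΦ1 g
      rw [← this]
      change Φ (p ⟨((1, g) : Γ × Q).1, one_mem Λ⟩, g) = _
      rw [h1]
    · refine hΦκ.trans (le_of_eq ?_)
      congr 1
      refine Finset.sum_congr rfl fun i _ => ?_
      change _ = ⟪ζ, ρ (j (b' i)) ((U (1, q i) : H →L[ℂ] H) ζ)⟫_ℂ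
      rw [hval, hb', hc]
      change _ = ⟪ζW, ρW (repSum uW (f i)) ((UW (1, q i) : HW →L[ℂ] HW) ζW)⟫_ℂ
      have e := repSum_map ρW uW (UW.comp (MonoidHom.inl W Q)) hρW (f i)
      unfold repSum
      rw [e, Finsupp.sum, Finsupp.sum, _root_.sum_apply, inner_sum]
      refine Finset.sum_congr rfl fun w _ => ?_
      rw [_root_.smul_apply, inner_smul_right]
      congr 1
      change _ = ⟪ζW, ((UW (w, 1) * UW (1, q i) : unitary (HW →L[ℂ] HW)) : HW →L[ℂ] HW) ζW⟫_ℂ
      rw [← map_mul, hUW]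
      simp

end Pool.Agent.Helper59.EX
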