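import Pool.Agent.Helper59.EX.WreathCrit
import Pool.Agent.Helper59.EX.GroupCrit

/-!
EX: final assembly for wreath products and free Burnside groups.
-/

namespace Pool.Agent.Helper59.EX

/-- The free Burnside group of exponent `m` on the generators `X`. -/
abbrev FreeBurnside (X : Type) (m : ℕ) : Type :=
  FreeGroup X ⧸ Subgroup.normalClosure {w : FreeGroup X | ∃ v, w = v ^ m}

theorem hasSubquotient_refl (G : Type) [Group G] : HasSubquotient G G :=
  ⟨⊤, (Subgroup.topEquiv (G := G)).toMonoidHom, (Subgroup.topEquiv (G := G)).surjective⟩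

theorem hasSubquotient_of_surjective {G H : Type} [Group G] [Group H] (f : G →* H)
    (hf : Function.Surjective f) : HasSubquotient G H :=
  ⟨⊤, f.comp (Subgroup.topEquiv (G := G)).toMonoidHom,
    hf.comp (Subgroup.topEquiv (G := G)).surjective⟩

theorem hasSubquotient_of_subgroup {G : Type} [Group G] (H : Subgroup G) :
    HasSubquotient G H := ⟨H, MonoidHom.id H, Function.surjective_id⟩

/-- A countable group of exponent `m` is a quotient of the free Burnside group. -/
theorem hasSubquotient_freeBurnside (W : Type) [Group W] [Countable W] (m : ℕ)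
    (hW : ∀ w : W, w ^ m = 1) : HasSubquotient (FreeBurnside ℕ m) W := by
  obtain ⟨e, he⟩ := exists_surjective_nat W
  let F : FreeGroup ℕ →* W := FreeGroup.lift e
  have hF : Subgroup.normalClosure {w : FreeGroup ℕ | ∃ v, w = v ^ m} ≤ F.ker := by
    apply Subgroup.normalClosure_le_normal
    rintro w ⟨v, rfl⟩
    simp [MonoidHom.mem_ker, hW]
  refine hasSubquotient_of_surjective (QuotientGroup.lift _ F hF) ?_
  intro w
  obtain ⟨n, rfl⟩ := he w
  refine ⟨QuotientGroup.mk (FreeGroup.of n), ?_⟩
  simp [F]

theorem countable_restrictedWreath (B G : Type) [Group B] [Finite B] [Group G] [Countable G] :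
    Countable (restrictedWreath B G) := by
  let f : restrictedWreath B G → (G →₀ Additive B) × G := fun w =>
    (Finsupp.ofSupportFinite (fun g => Additive.ofMul ((w : RegularWreathProduct B G).left g))
      (by
        refine w.2.subset ?_
        intro g hg
        simpa using hg), (w : RegularWreathProduct B G).right)
  refine Function.Injective.countable (f := f) ?_
  intro v w hvw
  apply Subtype.ext
  apply RegularWreathProduct.ext
  · funext g
    have h := congrArg (fun z : (G →₀ Additive B) × G => z.1 g) hvw
    exact h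
  · exact congrArg Prod.snd hvw

theorem pow_restrictedWreath (B G : Type) [CommGroup B] [Group G] (p n : ℕ)
    (hB : ∀ b : B, b ^ p = 1) (hG : ∀ g : G, g ^ n = 1) (w : restrictedWreath B G) :
    w ^ (p * n) = 1 := by
  have h1 : ∀ (v : restrictedWreath B G) (k : ℕ),
      ((v ^ k : restrictedWreath B G) : RegularWreathProduct B G).right =
        (v : RegularWreathProduct B G).right ^ k := by
    intro v k
    induction k with
    | zero => simp
    | succ k ih => rw [pow_succ, pow_succ, Subgroup.coe_mul, RegularWreathProduct.mul_right, ih]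
  have h2 : ∀ (v : restrictedWreath B G), (v : RegularWreathProduct B G).right = 1 → ∀ k : ℕ,
      ((v ^ k : restrictedWreath B G) : RegularWreathProduct B G).left =
        (v : RegularWreathProduct B G).left ^ k := by
    intro v hv k
    induction k with
    | zero => simp
    | succ k ih =>
      rw [pow_succ', pow_succ', Subgroup.coe_mul, RegularWreathProduct.mul_left, ih, hv]
      simp only [inv_one, one_mul]
  rw [mul_comm, pow_mul]
  have h3 : ((w ^ n : restrictedWreath B G) : RegularWreathProduct B G).right = 1 := by
    rw [h1, hG]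
  apply Subtype.ext
  apply RegularWreathProduct.ext
  · rw [h2 _ h3]
    funext g
    simp [hB]
  · rw [h1, h3, one_pow]
    rfl

theorem fullNotExact_of_crit {W Γ : Type} [Group W] [Group Γ] (hW : Crit W)
    (hsub : HasSubquotient Γ W) : FullNotExact Γ :=
  ⟨exists_fullCstar Γ, fun A _ u hu => not_exact_of_crit hW hsub A u hu⟩

theorem wreath_final (G : Type) [Group G] (hG : ¬ IsAmenable G) :
    ∃ n : ℕ, ∀ (L : Type) [CommGroup L], (Infinite L ∨ n ≤ Nat.card L) →
      ∀ (Γ : Type) [Group Γ], HasSubquotient Γ (restrictedWreath L G) → FullNotExact Γ := by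
  obtain ⟨G0, hG0, n0, hn0⟩ := exists_crit_countable G hG
  refine ⟨n0 + 1, fun L _ hL Γ _ hΓ => ?_⟩
  rcases hL with hL | hL
  · obtain ⟨B, _, _, hB, hLB⟩ := exists_finite_subquotient L n0
    exact fullNotExact_of_crit (hn0 B hB) (hΓ.trans (HasSubquotient.wreath G0 hLB))
  · have hfin : Finite L := Nat.finite_of_card_ne_zero (by omega)
    exact fullNotExact_of_crit (hn0 L (by omega))
      (hΓ.trans (HasSubquotient.wreath G0 (hasSubquotient_refl L)))

/-- Free Burnside groups whose exponent is a proper multiple of the exponent of a nonamenable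
group. -/
theorem burnside_final (G : Type) [Group G] (hG : ¬ IsAmenable G) (n p : ℕ)
    (hn : ∀ g : G, g ^ n = 1) (hp : 2 ≤ p) : FullNotExact (FreeBurnside ℕ (p * n)) := by
  obtain ⟨G0, hG0, n0, hn0⟩ := exists_crit_countable G hG
  have : NeZero p := ⟨by omega⟩
  have hcard : n0 ≤ Nat.card (Fin n0 → Multiplicative (ZMod p)) := by
    rw [Nat.card_eq_fintype_card, Fintype.card_fun, Fintype.card_multiplicative, ZMod.card,
      Fintype.card_fin]
    exact (Nat.lt_pow_self (by omega)).le
  have hexp : ∀ b : (Fin n0 → Multiplicative (ZMod p)), b ^ p = 1 := by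
    intro b
    funext i
    rw [Pi.pow_apply, Pi.one_apply, ← ofAdd_toAdd (b i), ← ofAdd_nsmul]
    simp
  have hc := countable_restrictedWreath (Fin n0 → Multiplicative (ZMod p)) G0
  exact fullNotExact_of_crit (hn0 _ hcard)
    (hasSubquotient_freeBurnside (restrictedWreath (Fin n0 → Multiplicative (ZMod p)) G0)
      (p * n) (pow_restrictedWreath _ G0 p n hexp (fun g => Subtype.ext (hn g))))

end Pool.Agent.Helper59.EX
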