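import Pool.Agent.Helper59.EX.Defs

/-!
Left and right regular representations on `l2`.
-/

open scoped TensorProduct InnerProductSpace ENNReal

namespace Pool.Agent.Helper59.EX

/-- The Hilbert space `l2(X)`. -/
abbrev L2 (X : Type) : Type := lp (fun _ : X => ℂ) 2

/-- Precomposition with a permutation, as an operator of `l2(X)`. -/
noncomputable def permOp {X : Type} (e : Equiv.Perm X) : L2 X →L[ℂ] L2 X :=
  LinearMap.mkContinuous
    { toFun := fun f => ⟨fun x => f (e x), by
        have h := lp.memℓp f
        rw [memℓp_gen_iff (by norm_num)] at h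
        have h2 : Memℓp (fun x => f (e x)) 2 := by
          rw [memℓp_gen_iff (by norm_num)]
          exact (Equiv.summable_iff e (f := fun x => ‖f x‖ ^ (2 : ℝ≥0∞).toReal)).2 h
        exact h2⟩
      map_add' := fun f g => by ext x; rfl
      map_smul' := fun c f => by ext x; rfl } 1 (fun f => by
        rw [one_mul, lp.norm_eq_tsum_rpow (by norm_num), lp.norm_eq_tsum_rpow (by norm_num)]
        exact le_of_eq (congrArg (fun r : ℝ => r ^ (1 / (2 : ℝ≥0∞).toReal))
          (Equiv.tsum_eq e (fun x => ‖f x‖ ^ (2 : ℝ≥0∞).toReal))))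

@[simp] theorem permOp_apply {X : Type} (e : Equiv.Perm X) (f : L2 X) (x : X) :
    permOp e f x = f (e x) := rfl

theorem permOp_mul {X : Type} (e e' : Equiv.Perm X) : permOp (e * e') = permOp e' * permOp e := by
  ext f x; rfl

theorem permOp_one {X : Type} : permOp (1 : Equiv.Perm X) = 1 := by
  ext f x; rfl

theorem permOp_star {X : Type} (e : Equiv.Perm X) : star (permOp e) = permOp e⁻¹ := by
  rw [ContinuousLinearMap.star_eq_adjoint]
  symm
  rw [ContinuousLinearMap.eq_adjoint_iff]
  intro f g
  rw [lp.inner_eq_tsum, lp.inner_eq_tsum]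
  rw [← Equiv.tsum_eq e]
  simp

theorem permOp_mem_unitary {X : Type} (e : Equiv.Perm X) :
    permOp e ∈ unitary (L2 X →L[ℂ] L2 X) := by
  rw [Unitary.mem_iff, permOp_star, ← permOp_mul, ← permOp_mul]
  simp [permOp_one]

/-- Right regular representation `(R_g f)(x) = f(x g)`. -/
noncomputable def rightReg {G : Type} [Group G] : G →* unitary (L2 G →L[ℂ] L2 G) where
  toFun g := ⟨permOp (Equiv.mulRight g), permOp_mem_unitary _⟩
  map_one' := by
    apply Subtype.ext; ext f x; simp
  map_mul' := fun g h => by
    apply Subtype.ext; ext f x; simp [mul_assoc]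

/-- Left regular representation `(L_g f)(x) = f(g⁻¹ x)`. -/
noncomputable def leftReg {G : Type} [Group G] : G →* unitary (L2 G →L[ℂ] L2 G) where
  toFun g := ⟨permOp (Equiv.mulLeft g⁻¹), permOp_mem_unitary _⟩
  map_one' := by
    apply Subtype.ext; ext f x; simp
  map_mul' := fun g h => by
    apply Subtype.ext; ext f x; simp [mul_assoc]

/-- The basis vector at `g`. -/
noncomputable def delta {X : Type} (g : X) : L2 X :=
  open Classical in lp.single 2 g (1 : ℂ)

theorem rightReg_apply {G : Type} [Group G] (g : G) (f : L2 G) (x : G) :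
    (rightReg g : L2 G →L[ℂ] L2 G) f x = f (x * g) := rfl

theorem leftReg_apply {G : Type} [Group G] (g : G) (f : L2 G) (x : G) :
    (leftReg g : L2 G →L[ℂ] L2 G) f x = f (g⁻¹ * x) := rfl

theorem delta_apply {X : Type} [DecidableEq X] (g x : X) :
    (delta g : L2 X) x = if x = g then 1 else 0 := by
  unfold delta
  by_cases h : x = g
  · subst h
    simp only [if_true]
    exact @lp.single_apply_self X (fun _ => ℂ) _ (fun a b => Classical.propDecidable (a = b)) 2 x
      (1 : ℂ)
  · simp only [h, if_false]
    exact @lp.single_apply_ne X (fun _ => ℂ) _ (fun a b => Classical.propDecidable (a = b)) 2 g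
      (1 : ℂ) x h

theorem rightReg_delta {G : Type} [Group G] (g x : G) :
    (rightReg g : L2 G →L[ℂ] L2 G) (delta x) = delta (x * g⁻¹) := by
  classical
  ext y
  rw [rightReg_apply, delta_apply, delta_apply]
  simp only [eq_mul_inv_iff_mul_eq]

theorem leftReg_delta {G : Type} [Group G] (g x : G) :
    (leftReg g : L2 G →L[ℂ] L2 G) (delta x) = delta (g * x) := by
  classical
  ext y
  rw [leftReg_apply, delta_apply, delta_apply]
  simp only [inv_mul_eq_iff_eq_mul]

theorem inner_delta_left {X : Type} (g : X) (f : L2 X) : ⟪delta g, f⟫_ℂ = f g := by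
  classical
  rw [delta, lp.inner_single_left]
  simp

theorem norm_delta {X : Type} (g : X) : ‖(delta g : L2 X)‖ = 1 := by
  classical
  rw [delta, lp.norm_single (by norm_num)]
  simp

theorem inner_delta_delta {X : Type} [DecidableEq X] (g h : X) :
    ⟪(delta g : L2 X), delta h⟫_ℂ = if g = h then 1 else 0 := by
  rw [inner_delta_left, delta_apply]

end Pool.Agent.Helper59.EX
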