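import Pool.Agent.Helper59.EX.Group
import Pool.Agent.Helper59.EX.Reg

/-!
Walks and forests in Cayley graphs, square summable cocycles, random forests.
-/

open scoped InnerProductSpace ComplexOrder

namespace Pool.Agent.Helper59.EX

/-- `IsWalk s a l b`: the list `l` of oriented edges is a walk from `a` to `b` in the Cayley graph
of `G` with respect to the family `s : I → G`. The edge `(g, i)` joins `g` to `g * s i`; it is
passed from `g` to `g * s i` if the Boolean is `true`, and backwards if it is `false`. -/
def IsWalk {G I : Type} [Group G] (s : I → G) : G → List ((G × I) × Bool) → G → Prop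
  | a, [], b => a = b
  | a, (e, true) :: l, b => e.1 = a ∧ IsWalk s (e.1 * s e.2) l b
  | a, (e, false) :: l, b => e.1 * s e.2 = a ∧ IsWalk s e.1 l b

/-- The set `ω` of edges of the Cayley graph is a forest: it contains no nonempty closed walk with
pairwise distinct edges. -/
def IsForest {G I : Type} [Group G] (s : I → G) (ω : Set (G × I)) : Prop :=
  ∀ (a : G) (l : List ((G × I) × Bool)), IsWalk s a l a → (∀ e ∈ l, e.1 ∈ ω) →
    (l.map Prod.fst).Nodup → l = []

/-- The 1-chain of a walk in `l2` of the set of edges. -/
noncomputable def walkVec {G I : Type} (l : List ((G × I) × Bool)) : L2 (G × I) :=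
  (l.map fun e => if e.2 then delta e.1 else - delta e.1).sum

/-- The closed subspace of the square summable 1-cocycles: the square summable functions on the
edges of the Cayley graph whose signed sum along every closed walk vanishes. -/
noncomputable def l2Cocycles {G I : Type} [Group G] (s : I → G) : Submodule ℂ (L2 (G × I)) :=
  (Submodule.span ℂ {v | ∃ (a : G) (l : List ((G × I) × Bool)), IsWalk s a l a ∧
    v = walkVec l})ᗮ

instance l2Cocycles_hasOrthogonalProjection {G I : Type} [Group G] (s : I → G) :
    (l2Cocycles s).HasOrthogonalProjection := by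
  unfold l2Cocycles
  infer_instance

/-- The `G`-dimension (von Neumann dimension) of the space of square summable 1-cocycles, that is
the sum over `i` of `⟨P δ_(1,i), δ_(1,i)⟩`, where `P` is the orthogonal projection. -/
noncomputable def l2CocycleDim {G I : Type} [Group G] [Fintype I] (s : I → G) : ℝ :=
  ∑ i, ‖(l2Cocycles s).starProjection (delta ((1 : G), i))‖ ^ 2

/-- Labels of walks. -/
def wlbl {G I Q : Type} [Group Q] (q : I → Q) : List ((G × I) × Bool) → Q
  | [] => 1
  | (e, true) :: l => q e.2 * wlbl q l
  | (e, false) :: l => (q e.2)⁻¹ * wlbl q l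

/-- The relation on `G × Q` generated by the edges in `ω`. -/
def WRel {G I Q : Type} [Group G] [Group Q] (s : I → G) (q : I → Q) (ω : Set (G × I))
    (u v : G × Q) : Prop :=
  ∃ l : List ((G × I) × Bool), IsWalk s u.1 l v.1 ∧ (∀ e ∈ l, e.1 ∈ ω) ∧ u.2 * wlbl q l = v.2

open Classical in
/-- `w F A` is the probability that the intersection of a random set with `F` is `A`. -/
structure IsFinDist {E : Type} (w : Finset E → Finset E → ℝ) : Prop where
  nonneg : ∀ F A, A ⊆ F → 0 ≤ w F A
  sum_one : ∀ F, ∑ A ∈ F.powerset, w F A = 1
  consistent : ∀ F F', F ⊆ F' → ∀ A ⊆ F, ∑ B ∈ F'.powerset with B ∩ F = A, w F' B = w F A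

open Classical in
/-- The weights of the determinantal measure with kernel `k`. -/
noncomputable def detWeight {E : Type} (k : E → E → ℂ) (F A : Finset E) : ℝ :=
  (Matrix.det (Matrix.of fun (e f : F) => if (e : E) ∈ A then k e f else
    (if e = f then (1 : ℂ) else 0) - k e f)).re

end Pool.Agent.Helper59.EX
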