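import Pool.Agent.Helper59.EX.GroupCrit
import Pool.Agent.Helper59.EX.Forest
import Pool.Agent.Helper59.EX.St.N1
import Pool.Agent.Helper59.EX.St.N2
import Pool.Agent.Helper59.EX.St.N3
import Pool.Agent.Helper59.EX.St.N4
import Pool.Agent.Helper59.EX.St.N6

/-!
EX: groups with large space of square summable cocycles, groups with invariant random forests.
-/

open scoped ComplexOrder
open MeasureTheory

namespace Pool.Agent.Helper59.EX

theorem det_eq_of_equiv {F F' : Type} [Fintype F] [Fintype F'] [DecidableEq F] [DecidableEq F']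
    (σ : F ≃ F') (M : Matrix F F ℂ) (M' : Matrix F' F' ℂ)
    (h : ∀ e f, M' (σ e) (σ f) = M e f) : M'.det = M.det := by
  rw [← Matrix.det_submatrix_equiv_self σ M']
  congr 1
  ext e f
  exact h e f

open Classical in
theorem detWeight_image_gen {E : Type} (k : E → E → ℂ) (τ : E → E) (hτ : Function.Injective τ)
    (hk : ∀ e f : E, k (τ e) (τ f) = k e f) (F A : Finset E) :
    detWeight k (F.image τ) (A.image τ) = detWeight k F A := by
  have hmem : ∀ (S : Finset E) (e : E), τ e ∈ S.image τ ↔ e ∈ S :=
    fun S e => hτ.mem_finset_image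
  let σ : F ≃ F.image τ :=
    Equiv.ofBijective (fun e => ⟨τ e, (hmem F e).2 e.2⟩) (by
      constructor
      · intro e f h
        exact Subtype.ext (hτ (congrArg Subtype.val h))
      · rintro ⟨e, he⟩
        obtain ⟨f, hf, rfl⟩ := Finset.mem_image.1 he
        exact ⟨⟨f, hf⟩, rfl⟩)
  unfold detWeight
  refine congrArg Complex.re (det_eq_of_equiv σ _ _ ?_)
  intro e f
  rw [Matrix.of_apply, Matrix.of_apply]
  have h0 : ∀ x : F, ((σ x : F.image τ) : E) = τ x := fun _ => rfl
  have h3 : (σ e = σ f) ↔ e = f := σ.injective.eq_iff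
  simp only [h0, hmem, hk, h3]

open Classical in
theorem detWeight_image {G I : Type} [Group G] (k : G × I → G × I → ℂ) (g : G)
    (hk : ∀ e f : G × I, k (g * e.1, e.2) (g * f.1, f.2) = k e f) (F A : Finset (G × I)) :
    detWeight k (F.image fun e => (g * e.1, e.2)) (A.image fun e => (g * e.1, e.2)) =
      detWeight k F A := by
  have hinj : Function.Injective (fun e : G × I => ((g * e.1, e.2) : G × I)) := by
    intro e f h
    have h' : ((g * e.1, e.2) : G × I) = (g * f.1, f.2) := h
    rw [Prod.mk.injEq] at h'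
    exact Prod.ext (mul_left_cancel h'.1) h'.2
  have h := detWeight_image_gen k (fun e => (g * e.1, e.2)) hinj hk F A
  have e1 : ∀ S : Finset (G × I), (@Finset.image (G × I) (G × I)
      (fun a b => propDecidable (a = b)) (fun e => (g * e.1, e.2)) S) =
      (S.image fun e => (g * e.1, e.2)) := by
    intro S
    ext x
    simp only [Finset.mem_image]
  rw [e1, e1] at h
  exact h

/-- Groups with a large space of square summable 1-cocycles. -/
theorem crit_of_l2Cocycles {G I : Type} [Group G] [Fintype I] (s : I → G)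
    (h : 2 * Real.sqrt (Fintype.card I) < l2CocycleDim s) : Crit G := by
  classical
  have hw : IsFinDist (detWeight (cocKer s)) :=
    detWeight_isFinDist _ (cocKer_posSemidef s)
      (fun F => by convert one_sub_cocKer_posSemidef s F)
  refine crit_of_forest s (detWeight (cocKer s)) hw ?_ ?_ ?_
  · intro g F A _
    exact detWeight_image (cocKer s) g (cocKer_shift s g) F A
  · intro F A hA hne
    by_contra hc
    obtain ⟨c, hc1, hc2⟩ := cocKer_cycle s A hc
    exact hne (detWeight_eq_zero _ hw F A hA c hc1 hc2)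
  · refine h.trans_le (le_of_eq ?_)
    unfold l2CocycleDim
    refine Finset.sum_congr rfl fun i _ => ?_
    rw [detWeight_singleton, cocKer_diag]

/-- Groups with an invariant random forest. -/
theorem crit_of_randomForest {G I : Type} [Group G] [Fintype I] (s : I → G)
    (P : Measure (G × I → Bool)) [IsProbabilityMeasure P]
    (hP : ∀ g : G, P.map (fun ω e => ω (g⁻¹ * e.1, e.2)) = P)
    (hfor : ∀ᵐ ω ∂P, IsForest s {e | ω e = true})
    (h : 2 * Real.sqrt (Fintype.card I) < ∑ i, P.real {ω | ω (1, i) = true}) : Crit G := by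
  classical
  refine crit_of_forest s (measDist P) (measDist_isFinDist P) ?_ ?_ ?_
  · intro g F A hA
    exact measDist_image P hP g F A hA
  · intro F A hA hne
    exact measDist_forest s P hfor F A hA hne
  · simp only [measDist_singleton]
    exact h

theorem l2_final {G I : Type} [Group G] [Fintype I] (s : I → G)
    (h : 2 * Real.sqrt (Fintype.card I) < l2CocycleDim s) (Γ : Type) [Group Γ]
    (hΓ : HasSubquotient Γ G) : FullNotExact Γ :=
  ⟨exists_fullCstar Γ, fun A _ u hu => not_exact_of_crit (crit_of_l2Cocycles s h) hΓ A u hu⟩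

theorem randomForest_final {G I : Type} [Group G] [Fintype I] (s : I → G)
    (P : Measure (G × I → Bool)) [IsProbabilityMeasure P]
    (hP : ∀ g : G, P.map (fun ω e => ω (g⁻¹ * e.1, e.2)) = P)
    (hfor : ∀ᵐ ω ∂P, IsForest s {e | ω e = true})
    (h : 2 * Real.sqrt (Fintype.card I) < ∑ i, P.real {ω | ω (1, i) = true}) (Γ : Type)
    [Group Γ] (hΓ : HasSubquotient Γ G) : FullNotExact Γ :=
  ⟨exists_fullCstar Γ, fun A _ u hu =>
    not_exact_of_crit (crit_of_randomForest s P hP hfor h) hΓ A u hu⟩

end Pool.Agent.Helper59.EX
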