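import Pool.Agent.Helper59.EX.Defs

/-!
Positive definite functions and the group form of the criterion.
-/

open scoped InnerProductSpace ComplexOrder

namespace Pool.Agent.Helper59.EX

/-- Positive definite functions on a group. -/
def IsPosDef {G : Type} [Group G] (Φ : G → ℂ) : Prop :=
  ∀ (s : Finset G) (c : G → ℂ), 0 ≤ ∑ g ∈ s, ∑ h ∈ s, star (c g) * c h * Φ (g⁻¹ * h)

/-- The operator `π(f)` for a finitely supported function `f`. -/
noncomputable def repSum {G : Type} [Group G] {D : Type*} [CStarAlgebra D] (v : G →* unitary D)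
    (f : G →₀ ℂ) : D := f.sum fun g c => c • (v g : D)

/-- The criterion for a group `W`. -/
def Crit (W : Type) [Group W] : Prop :=
  ∃ (I : Type) (_ : Fintype I) (f : I → W →₀ ℂ) (Dr Dc κ : ℝ), 0 < Dr ∧ 0 < Dc ∧
    Real.sqrt Dr + Real.sqrt Dc < κ ∧
    (∀ (H : Type) [NormedAddCommGroup H] [InnerProductSpace ℂ H] [CompleteSpace H]
      (π : W →* unitary (H →L[ℂ] H)),
      ‖∑ i, repSum π (f i) * star (repSum π (f i))‖ ≤ Dr ∧
      ‖∑ i, star (repSum π (f i)) * repSum π (f i)‖ ≤ Dc) ∧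
    (∀ (Q : Type) [Group Q] [Finite Q] (q : I → Q), ∃ Φ : W × Q → ℂ, IsPosDef Φ ∧
      (∀ g : Q, Φ (1, g) = open Classical in if g = 1 then 1 else 0) ∧
      κ ≤ (∑ i, (f i).sum fun w c => c * Φ (w, q i)).re)

end Pool.Agent.Helper59.EX
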