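import Pool.Agent.Helper59.EX.Monod0
import Pool.Agent.Helper59.EX.St.M2b

/-!
Monod's groups `G(A)` and `H(A)`.
-/

open Matrix OnePoint Topology
open scoped MatrixGroups

namespace Pool.Agent.Helper59.EX

/-- Monod's group `G(A)` of piecewise `PSL(2, A)` homeomorphisms of the projective line with
breakpoints in `P_A`. -/
def MonodG (A : Subring ℝ) : Subgroup (OnePoint ℝ ≃ₜ OnePoint ℝ) where
  carrier := {f | IsPiecewise A f}
  one_mem' := IsPiecewise.one A
  mul_mem' := fun hf hg => IsPiecewise.mul hf hg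
  inv_mem' := fun hf => IsPiecewise.inv hf

/-- Monod's group `H(A)`, the stabilizer of `∞` in `G(A)`. -/
def MonodH (A : Subring ℝ) : Subgroup (OnePoint ℝ ≃ₜ OnePoint ℝ) where
  carrier := {f | IsPiecewise A f ∧ f ∞ = ∞}
  one_mem' := ⟨IsPiecewise.one A, rfl⟩
  mul_mem' := fun {f g} hf hg => ⟨IsPiecewise.mul hf.1 hg.1, by
    show f (g ∞) = ∞
    rw [hg.2, hf.2]⟩
  inv_mem' := fun {f} hf => ⟨IsPiecewise.inv hf.1, by
    show f.symm ∞ = ∞
    rw [Homeomorph.symm_apply_eq]
    exact hf.2.symm⟩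

end Pool.Agent.Helper59.EX
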