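import Pool.Agent.Helper59.EX.Group

/-!
Piecewise projective homeomorphisms of the projective line (Monod's groups).
-/

open Matrix OnePoint Topology
open scoped MatrixGroups

namespace Pool.Agent.Helper59.EX

/-- The Moebius transformation of the projective line `K ∪ {∞}` given by `g ∈ SL(2, K)`. -/
def mob {K : Type*} [Field K] [DecidableEq K] (g : SL(2, K)) (x : OnePoint K) : OnePoint K :=
  (g : GL (Fin 2) K) • x

/-- Moebius transformations as permutations. -/
def mobPerm {K : Type*} [Field K] [DecidableEq K] : SL(2, K) →* Equiv.Perm (OnePoint K) :=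
  (MulAction.toPermHom (GL (Fin 2) K) (OnePoint K)).comp
    (Matrix.SpecialLinearGroup.toGL (n := Fin 2) (R := K))

/-- The set `P_A` of fixed points of hyperbolic elements of `SL(2, A)`. -/
def hypFix (A : Subring ℝ) : Set (OnePoint ℝ) :=
  {x | ∃ g : SL(2, A), 2 < |((g 0 0 : ℝ) + (g 1 1 : ℝ))| ∧
    mob (Matrix.SpecialLinearGroup.map A.subtype g) x = x}

/-- The homeomorphism `f` of the projective line is piecewise in `PSL(2, A)` with finitely many
pieces, all the breakpoints being in `P_A`. -/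
def IsPiecewise (A : Subring ℝ) (f : OnePoint ℝ ≃ₜ OnePoint ℝ) : Prop :=
  ∃ F : Set (OnePoint ℝ), F.Finite ∧ F ⊆ hypFix A ∧ ∀ x ∉ F, ∃ g : SL(2, A),
    ∀ᶠ y in 𝓝 x, f y = mob (Matrix.SpecialLinearGroup.map A.subtype g) y

/-- The matrices `X^m Z X^(-m)`, `m = 2 i`, `X = (1 t; 0 1)`, `Z = (1 + t², t; t, 1)`. -/
def zmat {R : Type*} [CommRing R] (t : R) (i : ℕ) : SL(2, R) :=
  ⟨!![1 + (2 * i + 1) * t ^ 2, t - 2 * i * (2 * i + 1) * t ^ 3; t, 1 - 2 * i * t ^ 2], by
    rw [Matrix.det_fin_two_of]; ring⟩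

/-- The real function given by `zmat t i`. -/
noncomputable def zfun (t : ℝ) (i : ℕ) (x : ℝ) : ℝ :=
  ((1 + (2 * i + 1) * t ^ 2) * x + (t - 2 * i * (2 * i + 1) * t ^ 3)) / (t * x + (1 - 2 * i * t ^ 2))

/-- `f` is given by an element of `SL(2, ℝ)` near `x`. -/
def LocMob (f : OnePoint ℝ ≃ₜ OnePoint ℝ) (x : OnePoint ℝ) : Prop :=
  ∃ g : SL(2, ℝ), ∀ᶠ y in 𝓝 x, f y = mob g y

end Pool.Agent.Helper59.EX
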