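import Pool.Agent.Helper59.EX.GroupCrit
import Pool.Agent.Helper59.EX.Monod
import Pool.Agent.Helper59.EX.St.M1
import Pool.Agent.Helper59.EX.St.M2
import Pool.Agent.Helper59.EX.St.M3
import Pool.Agent.Helper59.EX.St.M4
import Pool.Agent.Helper59.EX.St.M5
import Pool.Agent.Helper59.EX.St.M6
import Pool.Agent.Helper59.EX.St.M7
import Pool.Agent.Helper59.EX.St.G1

/-!
EX: the criterion for Monod's groups.
-/

open Matrix OnePoint Topology MeasureTheory
open scoped MatrixGroups

namespace Pool.Agent.Helper59.EX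

theorem IsPiecewise.finite_not_locMob {A : Subring ℝ} {f : OnePoint ℝ ≃ₜ OnePoint ℝ}
    (hf : IsPiecewise A f) : {x | ¬ LocMob f x}.Finite := by
  obtain ⟨F, hF, -, h⟩ := hf
  refine hF.subset ?_
  intro x hx
  by_contra hc
  obtain ⟨g, hg⟩ := h x hc
  exact hx ⟨_, hg⟩

theorem countable_of_closure_range {G : Type} [Group G] {n : ℕ} (h : Fin n → G) :
    Countable (Subgroup.closure (Set.range h)) := by
  have hc : Countable (FreeGroup (Fin n)) := by unfold FreeGroup; infer_instance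
  have hr : (FreeGroup.lift h).range = Subgroup.closure (Set.range h) :=
    FreeGroup.range_lift_eq_closure
  rw [← hr]
  exact Function.Surjective.countable (MonoidHom.rangeRestrict_surjective (FreeGroup.lift h))

theorem crit_monod (A : Subring ℝ) (hA : ∃ a ∈ A, ∀ n : ℤ, a ≠ (n : ℝ)) :
    ∃ W : Subgroup (OnePoint ℝ ≃ₜ OnePoint ℝ), W ≤ MonodH A ∧ Crit W := by
  classical
  obtain ⟨ε, hε, haff⟩ := affinity_ge 100
  obtain ⟨t, htA, ht0, htε, K, _, T, hT, hint, hP⟩ :=
    exists_param A hA (min ε (1 / 1000)) 1000 (by positivity)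
  have hfree := free_mob (n := 100) (by norm_num) t T hint (by push_cast; linarith) hP
  have ht1 : t < ε := htε.trans_le (min_le_left _ _)
  have ht2 : t < 1 / 1000 := htε.trans_le (min_le_right _ _)
  have hex : ∀ i : Fin 100, ∃ f ∈ MonodH A, ∀ x ∈ Set.Icc (0 : ℝ) 1,
      ∀ᶠ y in 𝓝 (x : OnePoint ℝ), f y = mob (zmat t i) y := by
    intro i
    refine exists_monod_elt A t htA ht0 i ?_
    have hi : ((i : ℕ) : ℝ) ≤ 99 := by exact_mod_cast Nat.le_of_lt_succ i.2
    nlinarith
  choose h0 hh0 hloc using hex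
  set W : Subgroup (OnePoint ℝ ≃ₜ OnePoint ℝ) := Subgroup.closure (Set.range h0) with hW
  have hWA : W ≤ MonodH A := by
    rw [hW, Subgroup.closure_le]
    rintro _ ⟨i, rfl⟩
    exact hh0 i
  have hcount : Countable W := countable_of_closure_range h0
  let h : Fin 100 → W := fun i => ⟨h0 i, Subgroup.subset_closure ⟨i, rfl⟩⟩
  have hinf : ∀ f ∈ W, f OnePoint.infty = OnePoint.infty := fun f hf => (hWA hf).2
  have hfin : ∀ f ∈ W, {x | ¬ LocMob f x}.Finite := fun f hf => (hWA hf).1.finite_not_locMob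
  obtain ⟨act, J, c, hact, hmeas, hJm, hJ0, hJ, hJint, hc, hcm, hgerm⟩ :=
    exists_cocycle_data W hinf hfin
  have hreg := countable_compl_regPts W hfin
  have hregm : MeasurableSet (RegPts W) := by
    have := hreg.measurableSet
    simpa using this.compl
  refine ⟨W, hWA, ?_⟩
  set m : Measure (RegPts W) := volume.comap Subtype.val with hm
  set Ω : Set (RegPts W) := {x | (x : ℝ) ∈ Set.Ioo (0 : ℝ) 1} with hΩ
  have hΩm : MeasurableSet Ω := measurable_subtype_coe measurableSet_Ioo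
  have hemb : MeasurableEmbedding (Subtype.val : (RegPts W) → ℝ) := MeasurableEmbedding.subtype_coe hregm
  have hae : (volume : Measure ℝ).restrict (RegPts W) = volume := by
    apply Measure.restrict_eq_self_of_ae_mem
    rw [ae_iff]
    exact hreg.measure_zero volume
  have hmap : m.map Subtype.val = volume := by
    rw [hm, map_comap_subtype_coe hregm, hae]
  have hint' : ∀ (F : ℝ → ℝ) (S' : Set ℝ), MeasurableSet S' →
      ∫ x in (Subtype.val : (RegPts W) → ℝ) ⁻¹' S', F x ∂m = ∫ x in S', F x := by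
    intro F S' hS'
    rw [← hemb.setIntegral_map, hmap]
  have hΩ1 : m Ω = 1 := by
    have e1 : m Ω = m.map Subtype.val (Set.Ioo (0 : ℝ) 1) := by
      rw [hemb.map_apply]
      rfl
    rw [e1, hmap, Real.volume_Ioo]
    simp
  refine crit_of_cocycle m hmeas J hJm hJ0 hJ hJint c hc hcm Ω hΩm hΩ1 (n := 100) (by norm_num)
    (FreeGroup.lift (fun i : Fin 100 => mobPerm (zmat t i))) hfree h 25 ?_ ?_
  · have e1 : Real.sqrt ((100 : ℕ) : ℝ) = 10 := by
      rw [show (((100 : ℕ) : ℝ)) = 10 ^ 2 by norm_num]; exact Real.sqrt_sq (by norm_num)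
    rw [e1]; norm_num
  · have key : ∀ i : Fin 100, (1 / 4 : ℝ) ≤
        ∫ x in {x | x ∈ Ω ∧ h i • x ∈ Ω ∧
          c (h i) x = FreeGroup.lift (fun i : Fin 100 => mobPerm (zmat t i)) (FreeGroup.of i)},
        Real.sqrt (J (h i) x) ∂m := by
      intro i
      set S' : Set ℝ := {x : ℝ | x ∈ Set.Ioo (0 : ℝ) 1 ∧ zfun t i x ∈ Set.Ioo (0 : ℝ) 1} with hS'
      have hz : Measurable (zfun t i) := by
        unfold zfun
        fun_prop
      have hS'm : MeasurableSet S' := measurableSet_Ioo.inter (hz measurableSet_Ioo)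
      have hg : ∀ x : (RegPts W), (x : ℝ) ∈ Set.Ioo (0 : ℝ) 1 →
          c (h i) x = mobPerm (zmat t i) ∧
          J (h i) x = 1 / (t * (x : ℝ) + (1 - 2 * i * t ^ 2)) ^ 2 ∧
          ((h i • x : (RegPts W)) : ℝ) = zfun t i x := by
        intro x hx
        have e1 := hloc i x ⟨hx.1.le, hx.2.le⟩
        obtain ⟨e2, e3, e4⟩ := hgerm (h i) x (zmat t i) e1
        refine ⟨e2, e4, ?_⟩
        have e5 := hact (h i) x
        have e6 : (h0 i) ((x : ℝ) : OnePoint ℝ) = mob (zmat t i) ((x : ℝ) : OnePoint ℝ) :=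
          e1.self_of_nhds
        have e7 : (((h i • x : (RegPts W)) : ℝ) : OnePoint ℝ) = mob (zmat t i) ((x : ℝ) : OnePoint ℝ) :=
          e5.trans e6
        rw [mob_coe _ _ e3] at e7
        exact OnePoint.coe_injective e7
      have hset : {x | x ∈ Ω ∧ h i • x ∈ Ω ∧
          c (h i) x = FreeGroup.lift (fun i : Fin 100 => mobPerm (zmat t i)) (FreeGroup.of i)} =
          (Subtype.val : (RegPts W) → ℝ) ⁻¹' S' := by
        ext x
        simp only [Set.mem_ofPred_eq, Set.mem_preimage, FreeGroup.lift_apply_of, hΩ, hS']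
        constructor
        · rintro ⟨h1, h2, -⟩
          rw [(hg x h1).2.2] at h2
          exact ⟨h1, h2⟩
        · rintro ⟨h1, h2⟩
          refine ⟨h1, ?_, (hg x h1).1⟩
          rw [(hg x h1).2.2]
          exact h2
      rw [hset]
      have hcongr : ∫ x in (Subtype.val : (RegPts W) → ℝ) ⁻¹' S', Real.sqrt (J (h i) x) ∂m =
          ∫ x in (Subtype.val : (RegPts W) → ℝ) ⁻¹' S',
            (fun y : ℝ => Real.sqrt (1 / (t * y + (1 - 2 * i * t ^ 2)) ^ 2)) x ∂m := by
        refine setIntegral_congr_fun (measurable_subtype_coe hS'm) ?_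
        intro x hx
        simp only
        rw [(hg x hx.1).2.1]
      rw [hcongr]
      refine (haff t ht0 ht1 i i.2).trans (le_of_eq ?_)
      exact (hint' (fun y : ℝ => Real.sqrt (1 / (t * y + (1 - 2 * i * t ^ 2)) ^ 2)) S' hS'm).symm
    calc (25 : ℝ) = ∑ i : Fin 100, (1 / 4 : ℝ) := by
          rw [Finset.sum_const, Finset.card_univ, Fintype.card_fin]; norm_num
      _ ≤ _ := Finset.sum_le_sum fun i _ => key i

theorem monod_final (A : Subring ℝ) (hA : ∃ a ∈ A, ∀ n : ℤ, a ≠ (n : ℝ)) (Γ : Type) [Group Γ]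
    (hΓ : HasSubquotient Γ (MonodH A)) : FullNotExact Γ := by
  obtain ⟨W, hW, hcrit⟩ := crit_monod A hA
  refine ⟨exists_fullCstar Γ, fun A' _ u hu => not_exact_of_crit hcrit (hΓ.trans ?_) A' u hu⟩
  exact ⟨W.subgroupOf (MonodH A), (Subgroup.subgroupOfEquivOfLe hW).toMonoidHom,
    (Subgroup.subgroupOfEquivOfLe hW).surjective⟩

end Pool.Agent.Helper59.EX
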