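import Pool.Agent.Helper59.EX.Group

/-!
Definitions for the wreath product theorem: the random graph, paths, good edges, the
equivalence relation, characters of the base group, the positive definite function.
-/

open scoped InnerProductSpace ComplexOrder

namespace Pool.Agent.Helper59.EX

/-- `ch : E → (B →* ℂ)` is an enumeration of the characters of the finite abelian group `B`. -/
structure IsDual {B E : Type} [CommGroup B] [Fintype B] [Fintype E] (ch : E → B →* ℂ) : Prop where
  star_eq : ∀ χ b, star (ch χ b) = ch χ b⁻¹
  norm_eq : ∀ χ b, ‖ch χ b‖ = 1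
  orth : ∀ χ χ', ∑ b, star (ch χ b) * ch χ' b =
    open Classical in if χ = χ' then (Fintype.card B : ℂ) else 0
  orth' : ∀ b, ∑ χ, ch χ b = open Classical in if b = 1 then (Fintype.card B : ℂ) else 0
  card_eq : Fintype.card E = Fintype.card B

/-- The base group: finitely supported functions `G → B`. -/
def baseGroup (B G : Type) [CommGroup B] : Subgroup (G → B) where
  carrier := {a | (Function.mulSupport a).Finite}
  one_mem' := by simp
  mul_mem' := by
    intro a b ha hb
    exact (Set.Finite.union ha hb).subset (Function.mulSupport_mul a b)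
  inv_mem' := by
    intro a ha
    simpa using ha

/-- The character of the base group given by the point `x : G → E`. -/
noncomputable def chi {B E G : Type} [CommGroup B] (ch : E → B →* ℂ) (a : G → B) (x : G → E) : ℂ :=
  ∏ᶠ g, ch (x g) (a g)

/-- Fourier transform of an element of the group algebra of the base group. -/
noncomputable def hat {B E G : Type} [CommGroup B] (ch : E → B →* ℂ)
    (f : baseGroup B G →₀ ℂ) (x : G → E) : ℂ :=
  f.sum fun a c => c * chi ch (a : G → B) x

/-- The shift `(g x)(h) = x(g⁻¹ h)`. -/
def shift {E G : Type} [Group G] (g : G) (x : G → E) : G → E := fun h => x (g⁻¹ * h)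

/-- The labelled edges: `(g, i, t)` is the edge from `g` to `g * tv t` with colour `i`. -/
abbrev Edge (G J T : Type) : Type := G × J × T

section
variable {E G J T : Type} [Group G]

/-- The edge `(g, i, t)` is open in the configuration `x`. -/
def Open (ψ : E → Option (J → T)) (x : G → E) (e : Edge G J T) : Prop :=
  ∃ τ, ψ (x e.1) = some τ ∧ τ e.2.1 = e.2.2

/-- Formal paths: lists of edges with orientation. -/
def IsPath (tv : T → G) : G → List (Edge G J T × Bool) → G → Prop
  | a, [], b => a = b
  | a, (e, true) :: l, b => e.1 = a ∧ IsPath tv (e.1 * tv e.2.2) l b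
  | a, (e, false) :: l, b => e.1 * tv e.2.2 = a ∧ IsPath tv e.1 l b

/-- The edge `e` is good in `x`: it is open and lies on no simple cycle of open edges. -/
def Good (ψ : E → Option (J → T)) (tv : T → G) (x : G → E) (e : Edge G J T) : Prop :=
  Open ψ x e ∧ ¬ ∃ l : List (Edge G J T × Bool), IsPath tv (e.1 * tv e.2.2) l e.1 ∧
    (∀ s ∈ l, Open ψ x s.1) ∧ (l.map Prod.fst).Nodup ∧ e ∉ l.map Prod.fst

/-- The label of a path in a group `Q`. -/
def lbl {Q : Type} [Group Q] (q : J × T → Q) : List (Edge G J T × Bool) → Q
  | [] => 1
  | (e, true) :: l => q e.2 * lbl q l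
  | (e, false) :: l => (q e.2)⁻¹ * lbl q l

/-- The equivalence relation on `G × Q` generated by the good edges. -/
def Rel {Q : Type} [Group Q] (ψ : E → Option (J → T)) (tv : T → G) (q : J × T → Q) (x : G → E)
    (u v : G × Q) : Prop :=
  ∃ l : List (Edge G J T × Bool), IsPath tv u.1 l v.1 ∧ (∀ s ∈ l, Good ψ tv x s.1) ∧
    u.2 * lbl q l = v.2

open Classical in
/-- The in-degree of `h` in the graph of open edges. -/
noncomputable def indeg [Fintype J] [Fintype T] (ψ : E → Option (J → T)) (tv : T → G)
    (x : G → E) (h : G) : ℕ :=
  (Finset.univ.filter fun p : J × T => Open ψ x (h * (tv p.2)⁻¹, p)).card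

end

/-- The uniform probability measure on a finite type. -/
noncomputable def unif (E : Type) [Fintype E] [Nonempty E] [MeasurableSpace E] :
    MeasureTheory.Measure E := (PMF.uniformOfFintype E).toMeasure

/-- The product measure on `G → E`. -/
noncomputable def mu (E G : Type) [Fintype E] [Nonempty E] [MeasurableSpace E] :
    MeasureTheory.Measure (G → E) :=
  MeasureTheory.Measure.infinitePi (fun _ : G => unif E)

open Classical in
/-- The positive definite function on `(B wr G) × Q`. -/
noncomputable def PhiW {B E G J T Q : Type} [CommGroup B] [Group G] [Group Q] [Fintype E]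
    [Nonempty E] [MeasurableSpace E] (ch : E → B →* ℂ) (ψ : E → Option (J → T)) (tv : T → G)
    (q : J × T → Q) (w : restrictedWreath B G × Q) : ℂ :=
  ∫ x, chi ch (w.1 : RegularWreathProduct B G).left x *
    (if Rel ψ tv q x (1, 1) ((w.1 : RegularWreathProduct B G).right, w.2) then 1 else 0)
    ∂(mu E G)

end Pool.Agent.Helper59.EX
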