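import Pool.Agent.Helper59.EX.Perc
import Pool.Agent.Helper59.EX.St.C1
import Pool.Agent.Helper59.EX.St.C2
import Pool.Agent.Helper59.EX.St.C4
import Pool.Agent.Helper59.EX.St.D2
import Pool.Agent.Helper59.EX.St.D3
import Pool.Agent.Helper59.EX.St.D4
import Pool.Agent.Helper59.EX.St.D5
import Pool.Agent.Helper59.EX.St.E0
import Pool.Agent.Helper59.EX.St.E2
import Pool.Agent.Helper59.EX.St.E3
import Pool.Agent.Helper59.EX.St.E4
import Pool.Agent.Helper59.EX.St.F1
import Pool.Agent.Helper59.EX.St.F2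
import Pool.Agent.Helper59.EX.St.F3
import Pool.Agent.Helper59.EX.St.G1

/-!
EX: the criterion holds for wreath products over groups with few closed words.
-/

open MeasureTheory

namespace Pool.Agent.Helper59.EX

theorem indeg_shift {E G J T : Type} [Group G] [Fintype J] [Fintype T] (ψ : E → Option (J → T))
    (tv : T → G) (x : G → E) (g h : G) :
    indeg ψ tv (shift g x) (g * h) = indeg ψ tv x h := by
  classical
  unfold indeg
  congr 1
  ext p
  simp only [Finset.mem_filter, Finset.mem_univ, true_and]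
  rw [mul_assoc]
  exact open_shift ψ x g (h * (tv p.2)⁻¹, p)

open Classical in
/-- The truncated edge function. -/
noncomputable def Ftr {E G J T : Type} [Group G] [Fintype J] [Fintype T]
    (ψ : E → Option (J → T)) (tv : T → G) (D : ℕ) (p : J × T) (x : G → E) : ℂ :=
  if Open ψ x (1, p) ∧ indeg ψ tv x (tv p.2) ≤ D then 1 else 0

theorem Ftr_local {E G J T : Type} [Group G] [Fintype J] [Fintype T]
    (ψ : E → Option (J → T)) (tv : T → G) (D : ℕ) (p : J × T) :
    ∃ V : Finset G, ∀ x y : G → E, (∀ v ∈ V, x v = y v) → Ftr ψ tv D p x = Ftr ψ tv D p y := by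
  classical
  refine ⟨insert 1 (Finset.univ.image fun s : T => tv p.2 * (tv s)⁻¹), fun x y h => ?_⟩
  have h1 : x 1 = y 1 := h 1 (by simp)
  have h2 : ∀ s : T, x (tv p.2 * (tv s)⁻¹) = y (tv p.2 * (tv s)⁻¹) := fun s => h _ (by simp)
  have h3 : Open ψ x (1, p) ↔ Open ψ y (1, p) := by
    unfold Open
    simp only [h1]
  have h4 : indeg ψ tv x (tv p.2) = indeg ψ tv y (tv p.2) := by
    unfold indeg
    congr 1
    ext r
    simp only [Finset.mem_filter, Finset.mem_univ, true_and]
    unfold Open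
    simp only [h2]
  unfold Ftr
  simp only [h3, h4]

theorem row_count {E G J T : Type} [Group G] [Fintype J] [Fintype T]
    (ψ : E → Option (J → T)) (tv : T → G) (D : ℕ) (x : G → E) :
    ∑ p : J × T, ‖Ftr ψ tv D p x‖ ^ 2 ≤ Fintype.card J := by
  classical
  have h1 : ∀ p : J × T, ‖Ftr ψ tv D p x‖ ^ 2 ≤ if Open ψ x (1, p) then (1 : ℝ) else 0 := by
    intro p
    unfold Ftr
    by_cases h : Open ψ x (1, p)
    · by_cases h' : indeg ψ tv x (tv p.2) ≤ D <;> simp [h, h']
    · simp [h]
  refine (Finset.sum_le_sum fun p _ => h1 p).trans ?_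
  rw [Finset.sum_boole]
  have h2 : (Finset.univ.filter fun p : J × T => Open ψ x (1, p)).card ≤
      (Finset.univ : Finset J).card := by
    refine Finset.card_le_card_of_injOn (fun p => p.1) (fun _ _ => Finset.mem_coe.2 (Finset.mem_univ _)) ?_
    intro p hp r hr hpr
    simp only [Finset.coe_filter, Finset.mem_univ, true_and, Set.mem_ofPred_eq] at hp hr
    obtain ⟨τ, h1, h2⟩ := hp
    obtain ⟨τ', h1', h2'⟩ := hr
    simp only at h1 h2 h1' h2' hpr
    rw [h1] at h1'
    have : τ = τ' := by simpa using h1'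
    subst this
    refine Prod.ext hpr ?_
    rw [← h2, ← h2', hpr]
  rw [Finset.card_univ] at h2
  exact_mod_cast h2

theorem col_count {E G J T : Type} [Group G] [Fintype J] [Fintype T]
    (ψ : E → Option (J → T)) (tv : T → G) (D : ℕ) (x : G → E) :
    ∑ p : J × T, ‖Ftr ψ tv D p (shift (tv p.2) x)‖ ^ 2 ≤ D := by
  classical
  have h0 : ∀ p : J × T, indeg ψ tv (shift (tv p.2) x) (tv p.2) = indeg ψ tv x 1 := by
    intro p
    have := indeg_shift ψ tv x (tv p.2) 1
    rwa [mul_one] at this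
  have h0' : ∀ p : J × T, Open ψ (shift (tv p.2) x) (1, p) ↔ Open ψ x ((1 : G) * (tv p.2)⁻¹, p) := by
    intro p
    have := open_shift ψ x (tv p.2) ((1 : G) * (tv p.2)⁻¹, p)
    simpa using this
  by_cases hd : indeg ψ tv x 1 ≤ D
  · have h1 : ∀ p : J × T, ‖Ftr ψ tv D p (shift (tv p.2) x)‖ ^ 2 ≤
        if Open ψ x ((1 : G) * (tv p.2)⁻¹, p) then (1 : ℝ) else 0 := by
      intro p
      unfold Ftr
      rw [h0, h0']
      by_cases h : Open ψ x ((1 : G) * (tv p.2)⁻¹, p)
      · rw [if_pos ⟨h, hd⟩, if_pos h]; simp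
      · rw [if_neg (fun hh => h hh.1), if_neg h]; simp
    refine (Finset.sum_le_sum fun p _ => h1 p).trans ?_
    rw [Finset.sum_boole]
    unfold indeg at hd
    exact_mod_cast hd
  · refine (Finset.sum_le_sum (g := fun _ => (0 : ℝ)) fun p _ => ?_).trans (by simp)
    unfold Ftr
    rw [h0]
    simp [hd]

/-- The probability estimate. -/
theorem prob_bound {E G J T : Type} [Group G] [Countable G] [Fintype E] [Nonempty E]
    [MeasurableSpace E] [MeasurableSingletonClass E] [Fintype J] [Fintype T] [DecidableEq J]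
    [Nonempty T] (ψ : E → Option (J → T)) (M : ℕ)
    (hψ : ∀ τ : J → T, Nat.card {χ : E // ψ χ = some τ} = M)
    (hM : Fintype.card E < (M + 1) * Fintype.card T ^ Fintype.card J)
    (hJ : Fintype.card J = 25) (hE : 50 * Fintype.card T ^ 25 ≤ Fintype.card E)
    (tv : T → G) (δ : ℝ) (hδ0 : 0 ≤ δ)
    (hδ : ∀ (m : ℕ) (σ : Fin (m + 1) → Bool), (Nat.card {τ : Fin (m + 1) → T //
      signedProd tv (List.ofFn fun i => (τ i, σ i)) = 1} : ℝ) ≤
        (δ * Fintype.card T) ^ (m + 1))
    (hβ : 50 * δ ≤ 1 / 4) :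
    16 ≤ ∑ p : J × T, (mu E G).real {x | Open ψ x (1, p) ∧ indeg ψ tv x (tv p.2) ≤ 100 ∧
      Good ψ tv x (1, p)} := by
  have h1 := sum_indeg_le ψ M hψ tv 100 (by norm_num) (G := G)
  have h2 := sum_bad_le ψ M hψ tv δ hδ0 hδ (by rw [hJ]; push_cast; linarith)
  have hT : (0 : ℝ) < Fintype.card T := by exact_mod_cast Fintype.card_pos
  have hEpos : (0 : ℝ) < Fintype.card E := by exact_mod_cast Fintype.card_pos
  have h3 : ∑ p : J × T, (mu E G).real {x | Open ψ x (1, p)} =
      25 * (M * (Fintype.card T : ℝ) ^ Fintype.card J / Fintype.card E) := by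
    have : ∀ p : J × T, (mu E G).real {x | Open ψ x (1, p)} =
        M * (Fintype.card T : ℝ) ^ Fintype.card J / Fintype.card E / Fintype.card T := by
      intro p
      rw [eq_div_iff hT.ne']
      exact mu_open_eq ψ M hψ (1, p)
    simp only [this, Finset.sum_const, Finset.card_univ, Fintype.card_prod, hJ, nsmul_eq_mul]
    push_cast
    field_simp
  have h4 : (49 : ℝ) / 50 ≤ M * (Fintype.card T : ℝ) ^ Fintype.card J / Fintype.card E := by
    rw [le_div_iff₀ hEpos]
    have a1 : (Fintype.card E : ℝ) < ((M : ℝ) + 1) * (Fintype.card T : ℝ) ^ Fintype.card J := by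
      exact_mod_cast hM
    have a2 : 50 * (Fintype.card T : ℝ) ^ 25 ≤ Fintype.card E := by exact_mod_cast hE
    rw [hJ] at a1 ⊢
    nlinarith
  have h5 : ∀ p : J × T, (mu E G).real {x | Open ψ x (1, p)} ≤
      (mu E G).real {x | Open ψ x (1, p) ∧ indeg ψ tv x (tv p.2) ≤ 100 ∧ Good ψ tv x (1, p)} +
      (mu E G).real {x | Open ψ x (1, p) ∧ 100 < indeg ψ tv x (tv p.2)} +
      (mu E G).real {x | Open ψ x (1, p) ∧ ¬ Good ψ tv x (1, p)} := by
    intro p
    have hsub : {x : G → E | Open ψ x (1, p)} ⊆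
        ({x | Open ψ x (1, p) ∧ indeg ψ tv x (tv p.2) ≤ 100 ∧ Good ψ tv x (1, p)} ∪
        {x | Open ψ x (1, p) ∧ 100 < indeg ψ tv x (tv p.2)}) ∪
        {x | Open ψ x (1, p) ∧ ¬ Good ψ tv x (1, p)} := by
      intro x hx
      simp only [Set.mem_ofPred_eq, Set.mem_union] at hx ⊢
      by_cases hg : Good ψ tv x (1, p)
      · by_cases hi : indeg ψ tv x (tv p.2) ≤ 100
        · exact Or.inl (Or.inl ⟨hx, hi, hg⟩)
        · exact Or.inl (Or.inr ⟨hx, not_le.1 hi⟩)
      · exact Or.inr ⟨hx, hg⟩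
    refine (measureReal_mono hsub).trans ((measureReal_union_le _ _).trans ?_)
    gcongr
    exact measureReal_union_le _ _
  have h6 := Finset.sum_le_sum fun p (_ : p ∈ (Finset.univ : Finset (J × T))) => h5 p
  rw [Finset.sum_add_distrib, Finset.sum_add_distrib, h3] at h6
  rw [hJ] at h1 h2
  push_cast at h1 h2
  norm_num at h1
  have h7 : 25 * ((49 : ℝ) / 50) ≤ 25 * (M * (Fintype.card T : ℝ) ^ Fintype.card J /
    Fintype.card E) := by gcongr
  have h1' : ∑ p : J × T, (mu E G).real {x | Open ψ x (1, p) ∧ 100 < indeg ψ tv x (tv p.2)} ≤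
    (13 : ℝ) / 2 := h1
  linarith

theorem crit_wreath_aux {B E G J T : Type} [CommGroup B] [Fintype B] [Group G] [Countable G]
    [Fintype E] [Nonempty E] [MeasurableSpace E] [MeasurableSingletonClass E] [Fintype J]
    [Fintype T] [DecidableEq J] [Nonempty T] (ch : E → B →* ℂ) (hch : IsDual ch)
    (ψ : E → Option (J → T)) (M : ℕ)
    (hψ : ∀ τ : J → T, Nat.card {χ : E // ψ χ = some τ} = M)
    (hM : Fintype.card E < (M + 1) * Fintype.card T ^ Fintype.card J)
    (hJ : Fintype.card J = 25) (hE : 50 * Fintype.card T ^ 25 ≤ Fintype.card E)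
    (tv : T → G) (δ : ℝ) (hδ0 : 0 ≤ δ)
    (hδ : ∀ (m : ℕ) (σ : Fin (m + 1) → Bool), (Nat.card {τ : Fin (m + 1) → T //
      signedProd tv (List.ofFn fun i => (τ i, σ i)) = 1} : ℝ) ≤
        (δ * Fintype.card T) ^ (m + 1))
    (hβ : 50 * δ ≤ 1 / 4) : Crit (restrictedWreath B G) := by
  classical
  choose V hV using fun p : J × T => Ftr_local (E := E) ψ tv 100 p
  choose f hf using fun p : J × T => exists_hat_eq ch hch (V p) (Ftr ψ tv 100 p) (hV p)
  refine ⟨J × T, inferInstance, fun p => bw (tv p.2) (f p), 25, 100, 16, by norm_num, by norm_num,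
    ?_, ?_, ?_⟩
  · have e1 : Real.sqrt 25 = 5 := by
      rw [show (25 : ℝ) = 5 ^ 2 by norm_num]; exact Real.sqrt_sq (by norm_num)
    have e2 : Real.sqrt 100 = 10 := by
      rw [show (100 : ℝ) = 10 ^ 2 by norm_num]; exact Real.sqrt_sq (by norm_num)
    rw [e1, e2]; norm_num
  · intro H _ _ _ π
    refine ⟨row_bound ch hch f (fun p => tv p.2) 25 (by norm_num) (fun x => ?_) π,
      col_bound ch hch f (fun p => tv p.2) 100 (by norm_num) (fun x => ?_) π⟩
    · simp only [hf]
      have := row_count ψ tv 100 x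
      rw [hJ] at this
      exact_mod_cast this
    · simp only [hf]
      exact_mod_cast col_count ψ tv 100 x
  · intro Q _ _ q
    refine ⟨PhiW ch ψ tv q, PhiW_posDef ch hch ψ tv q, fun g => PhiW_one ch hch ψ tv q g, ?_⟩
    have hprob := prob_bound ψ M hψ hM hJ hE tv δ hδ0 hδ hβ
    refine hprob.trans ?_
    rw [Complex.re_sum]
    refine Finset.sum_le_sum fun p _ => ?_
    rw [PhiW_pairing ch hch ψ tv q (f p) (tv p.2) (q p)]
    -- the integrand is the indicator of a larger set
    set A : Set (G → E) := {x | Open ψ x (1, p) ∧ indeg ψ tv x (tv p.2) ≤ 100} with hA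
    set R : Set (G → E) := {x | Rel ψ tv q x (1, 1) (tv p.2, q p)} with hR
    have hAm : MeasurableSet A := by
      have : A = {x | Open ψ x (1, p)} ∩ {x | indeg ψ tv x (tv p.2) ≤ 100} := rfl
      rw [this]
      exact (measurableSet_open ψ (1, p)).inter
        (measurableSet_le (measurable_indeg ψ tv (tv p.2)) measurable_const)
    have hRm : MeasurableSet R := measurableSet_rel ψ tv q _ _
    have e : (fun x : G → E => hat ch (f p) x *
        (if Rel ψ tv q x (1, 1) (tv p.2, q p) then (1 : ℂ) else 0)) =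
        (A ∩ R).indicator (fun _ => (1 : ℂ)) := by
      funext x
      rw [hf]
      unfold Ftr
      by_cases h1 : x ∈ A
      · have h1' : Open ψ x (1, p) ∧ indeg ψ tv x (tv p.2) ≤ 100 := h1
        by_cases h2 : x ∈ R
        · have h2' : Rel ψ tv q x (1, 1) (tv p.2, q p) := h2
          rw [Set.indicator_of_mem (Set.mem_inter h1 h2), if_pos h1', if_pos h2', mul_one]
        · have h2' : ¬ Rel ψ tv q x (1, 1) (tv p.2, q p) := h2
          rw [Set.indicator_of_notMem (fun hh => h2 hh.2), if_neg h2', mul_zero]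
      · have h1' : ¬ (Open ψ x (1, p) ∧ indeg ψ tv x (tv p.2) ≤ 100) := h1
        rw [Set.indicator_of_notMem (fun hh => h1 hh.1), if_neg h1', zero_mul]
    rw [e, integral_indicator_const _ (hAm.inter hRm)]
    simp only [Complex.real_smul, mul_one, Complex.ofReal_re]
    refine measureReal_mono ?_
    intro x hx
    have hx' : Open ψ x (1, p) ∧ indeg ψ tv x (tv p.2) ≤ 100 ∧ Good ψ tv x (1, p) := hx
    exact And.intro (And.intro hx'.1 hx'.2.1) (rel_of_good ψ tv q x p hx'.2.2)

theorem crit_wreath {G : Type} [Group G] [Countable G] (S : Finset G) (hS : ∀ s ∈ S, s⁻¹ ∈ S)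
    (hne : S.Nonempty) (ρ : ℝ) (hρ0 : 0 < ρ) (hρ1 : ρ < 1)
    (hρ : ∀ m : ℕ, (Nat.card {w : Fin m → S //
      (List.ofFn fun i => ((w i : S) : G)).prod = 1} : ℝ) ≤ (ρ * S.card) ^ m) :
    ∃ n : ℕ, ∀ (B : Type) [CommGroup B] [Finite B], n ≤ Nat.card B →
      Crit (restrictedWreath B G) := by
  obtain ⟨k, hk⟩ : ∃ k : ℕ, ρ ^ k < 1 / 200 := exists_pow_lt_of_lt_one (by norm_num) hρ1
  refine ⟨50 * Fintype.card (Fin k → S) ^ 25, ?_⟩
  intro B _ _ hB
  have : Fintype B := Fintype.ofFinite B
  obtain ⟨E, hEf, ch, hch⟩ := exists_dual B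
  have hcard : Fintype.card E = Fintype.card B := hch.card_eq
  have hEne : Nonempty E := by
    rw [← Fintype.card_pos_iff, hcard]
    exact Fintype.card_pos
  let _ : MeasurableSpace E := ⊤
  have : MeasurableSingletonClass E := ⟨fun _ => trivial⟩
  have : Nonempty S := hne.to_subtype
  obtain ⟨ψ, M, hψ, hM⟩ := exists_psi E (Fin 25) (Fin k → S)
  refine crit_wreath_aux ch hch ψ M hψ hM (by simp) ?_
    (fun t : Fin k → S => (List.ofFn fun i => ((t i : S) : G)).prod) (ρ ^ k) (by positivity) ?_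
    (by linarith)
  · rw [hcard, ← Nat.card_eq_fintype_card (α := B)]
    exact hB
  · intro m σ
    refine (signed_words_le S hS ρ hρ k (m + 1) σ).trans (le_of_eq ?_)
    congr 1
    rw [Fintype.card_fun, Fintype.card_fin, Fintype.card_coe, mul_pow]
    push_cast
    ring

/-- Main theorem, first form. -/
theorem exists_crit_countable (G : Type) [Group G] (hG : ¬ IsAmenable G) :
    ∃ (G0 : Subgroup G), Countable G0 ∧ ∃ n : ℕ, ∀ (B : Type) [CommGroup B] [Finite B],
      n ≤ Nat.card B → Crit (restrictedWreath B G0) := by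
  classical
  obtain ⟨S0, ε, hε, hexp⟩ := exists_expansion G hG
  -- symmetrize
  set S : Finset G := insert 1 (S0 ∪ S0.image fun s => s⁻¹) with hSdef
  have hS : ∀ s ∈ S, s⁻¹ ∈ S := by
    intro s hs
    simp only [hSdef, Finset.mem_insert, Finset.mem_union, Finset.mem_image] at hs ⊢
    rcases hs with rfl | hs | ⟨t, ht, rfl⟩
    · left; simp
    · right; right; exact ⟨s, hs, rfl⟩
    · right; left; simpa using ht
  have hexp' : ∀ F : Finset G, F.Nonempty →
      ∃ s ∈ S, ε * F.card < ((F.image fun x => s * x) \ F).card := by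
    intro F hF
    obtain ⟨s, hs, h⟩ := hexp F hF
    exact ⟨s, by simp [hSdef, hs], h⟩
  have hne : S.Nonempty := ⟨1, by simp [hSdef]⟩
  obtain ⟨ρ, hρ0, hρ1, hρ⟩ := closed_words_le S hS hne ε hε hexp'
  -- the subgroup generated by S
  set G0 : Subgroup G := Subgroup.closure (S : Set G) with hG0
  have hsub : ∀ s ∈ S, s ∈ G0 := fun s hs => Subgroup.subset_closure hs
  have : Countable G0 := by
    have hc : Countable (FreeGroup S) := by unfold FreeGroup; infer_instance
    have hr : (FreeGroup.lift (fun s : S => (s : G))).range = G0 := by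
      rw [FreeGroup.range_lift_eq_closure, hG0]
      congr 1
      ext g; simp
    rw [← hr]
    exact Function.Surjective.countable
      (MonoidHom.rangeRestrict_surjective (FreeGroup.lift (fun s : S => (s : G))))
  set S' : Finset G0 := S.attach.map ⟨fun s => (⟨s.1, hsub s.1 s.2⟩ : G0), by
    intro a b h; apply Subtype.ext; simpa using congrArg Subtype.val h⟩ with hS'
  have hmem : ∀ s : G0, s ∈ S' ↔ (s : G) ∈ S := by
    intro s
    simp only [hS', Finset.mem_map, Finset.mem_attach, Function.Embedding.coeFn_mk, true_and,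
      Subtype.exists]
    constructor
    · rintro ⟨a, ha, rfl⟩; exact ha
    · intro h; exact ⟨s, h, rfl⟩
  have hcard : S'.card = S.card := by rw [hS', Finset.card_map, Finset.card_attach]
  have hS's : ∀ s ∈ S', s⁻¹ ∈ S' := by
    intro s hs
    rw [hmem] at hs ⊢
    exact hS _ hs
  have hne' : S'.Nonempty := ⟨1, by rw [hmem]; simp [hSdef]⟩
  have hρ' : ∀ m : ℕ, (Nat.card {w : Fin m → S' //
      (List.ofFn fun i => ((w i : S') : G0)).prod = 1} : ℝ) ≤ (ρ * S'.card) ^ m := by
    intro m
    rw [hcard]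
    refine le_trans ?_ (hρ m)
    have hfin : Finite {w : Fin m → S // (List.ofFn fun i => ((w i : S) : G)).prod = 1} :=
      inferInstance
    have : Nat.card {w : Fin m → S' // (List.ofFn fun i => ((w i : S') : G0)).prod = 1} ≤
        Nat.card {w : Fin m → S // (List.ofFn fun i => ((w i : S) : G)).prod = 1} := by
      refine Nat.card_le_card_of_injective
        (fun w => ⟨fun i => ⟨((w.1 i : S') : G0).1, (hmem _).1 (w.1 i).2⟩, ?_⟩) ?_
      · have h := congrArg (Subtype.val : G0 → G) w.2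
        rw [Subgroup.val_list_prod, List.map_ofFn] at h
        simpa [Function.comp_def] using h
      · intro a b hab
        apply Subtype.ext
        funext i
        have h := congrFun (congrArg Subtype.val hab) i
        apply Subtype.ext
        apply Subtype.ext
        have h' : (⟨((a.1 i : S') : G0).1, (hmem _).1 (a.1 i).2⟩ : S) =
          ⟨((b.1 i : S') : G0).1, (hmem _).1 (b.1 i).2⟩ := h
        exact Subtype.mk.inj h'
    exact_mod_cast this
  obtain ⟨n, hn⟩ := crit_wreath S' hS's hne' ρ hρ0 hρ1 hρ'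
  exact ⟨G0, inferInstance, n, hn⟩

end Pool.Agent.Helper59.EX
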